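import Mathlib

/-!
Definitions: graphs and spanning trees in the sphere, post-critical sets, isotopy.
-/

namespace Pool.Agent.MP_a0c272_an

open Set Topology

/-- The Riemann sphere. -/
abbrev Sph : Type := OnePoint ℂ

/-- The quadratic polynomial `z ↦ z ^ 2 + c` as a self-map of the sphere (fixing infinity). -/
def quad (c : ℂ) : Sph → Sph := OnePoint.map fun z => z ^ 2 + c

/-- Critical values: images of the points near which `f` is not injective. -/
def critVal (f : Sph → Sph) : Set Sph := f '' {x | ¬ ∃ U ∈ 𝓝 x, InjOn f U}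

/-- The post-critical set: the smallest closed forward invariant set containing the critical
values. -/
def postcrit (f : Sph → Sph) : Set Sph := ⋂₀ {X | IsClosed X ∧ MapsTo f X X ∧ critVal f ⊆ X}

/-- A finite graph embedded in the sphere: vertices `V` and `m` edges; each edge is an arc
meeting `V` exactly in its two ends, and distinct edges meet only in vertices. -/
structure Graph where
  V : Finset Sph
  m : ℕ
  e : Fin m → C(unitInterval, Sph)
  inj : ∀ i, Function.Injective (e i)
  ends : ∀ i t, e i t ∈ V ↔ t = 0 ∨ t = 1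
  disj : ∀ i j s t, e i s = e j t → i = j ∨ e i s ∈ V

/-- The underlying set of a graph. -/
def Graph.carrier (G : Graph) : Set Sph := ↑G.V ∪ ⋃ i, range (G.e i)

/-- A branch point: a vertex whose removal leaves more than two components. -/
def Graph.IsBranch (G : Graph) (x : Sph) : Prop :=
  x ∈ G.V ∧ 2 < ENat.card (ConnectedComponents ↥(G.carrier \ {x}))

/-- A spanning tree for `P`. -/
def Graph.IsSpanningTree (G : Graph) (P : Set Sph) : Prop :=
  IsSimplyConnected G.carrier ∧ P ⊆ ↑G.V ∧ ∀ x ∈ G.V, x ∉ P → G.IsBranch x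

/-- `f (T) ⊆ T` and `f (V T) ⊆ V T`. -/
def Graph.IsInvariant (G : Graph) (f : Sph → Sph) : Prop :=
  MapsTo f G.carrier G.carrier ∧ MapsTo f ↑G.V ↑G.V

/-- An isotopy of the sphere that starts at the identity and fixes `P` pointwise. -/
def IsIsotopyRel (P : Set Sph) (Ψ : C(unitInterval × Sph, Sph)) : Prop :=
  (∀ t, IsHomeomorph fun x => Ψ (t, x)) ∧ (∀ x, Ψ (0, x) = x) ∧ ∀ t, ∀ x ∈ P, Ψ (t, x) = x

/-- Isotopy of graphs relative to `P`. -/
def Isotopic (P : Set Sph) (G H : Graph) : Prop :=
  ∃ Ψ, IsIsotopyRel P Ψ ∧ (fun x => Ψ (1, x)) '' G.carrier = H.carrier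

/-- There is a homeomorphism of the underlying sets fixing the points of `P`. -/
def HomeoRel (P : Set Sph) (G H : Graph) : Prop :=
  ∃ h : G.carrier ≃ₜ H.carrier, ∀ x : G.carrier, (x : Sph) ∈ P → (h x : Sph) = x

end Pool.Agent.MP_a0c272_an
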