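import Pool.Agent.MP_a0c272_an.Model

/-!
The cycle of intervals of one renormalisation level and its cycle of feet.
-/

namespace Pool.Agent.MP_a0c272_an

open Set Function

/-- The data of one level: far ends `a`, feet `x`, sides `τ`. -/
structure Level (c : ℝ) (z : ℕ → ℝ) (n : ℕ) (a x τ : ℕ → ℝ) : Prop where
  sgn : ∀ i, τ i = 1 ∨ τ i = -1
  pa : Periodic a n
  px : Periodic x n
  pτ : Periodic τ n
  a_mem : ∀ i, ∃ k, a i = z k
  x_ne : ∀ i k, x i ≠ z k
  cover : ∀ k, z k ∈ uIcc (a k) (x k)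
  maps : ∀ i, MapsTo (q c) (uIcc (a i) (x i)) (uIcc (a (i + 1)) (x (i + 1)))
  foot : ∀ i, q c (x i) = x (i + 1)
  side : ∀ i, τ (i + 1) = τ i * sg (x i)
  disj : ∀ i l, ¬ i ≡ l [MOD n] → Disjoint (uIcc (a i) (x i)) (uIcc (a l) (x l))

/-- The sides. -/
noncomputable def tau (n : ℕ) (z : ℕ → ℝ) : ℕ → ℝ
  | 0 => 1
  | i + 1 => if n ∣ i + 1 then 1 else tau n z i * sg (z (i % n))

/-- The sign of the inverse branch. -/
noncomputable def sig (n : ℕ) (z : ℕ → ℝ) (i : ℕ) : ℝ :=
  if n ∣ i + 1 then tau n z i else sg (z (i % n))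

lemma tau_cases (n : ℕ) (z : ℕ → ℝ) (i : ℕ) : tau n z i = 1 ∨ tau n z i = -1 := by
  induction i with
  | zero => simp [tau]
  | succ i ih =>
    simp only [tau]
    split_ifs
    · simp
    · rcases ih with h | h <;> rcases sg_cases (z (i % n)) with h' | h' <;> simp [h, h']

lemma sig_cases (n : ℕ) (z : ℕ → ℝ) (i : ℕ) : sig n z i = 1 ∨ sig n z i = -1 := by
  unfold sig; split_ifs
  · exact tau_cases n z i
  · exact sg_cases _

lemma tau_succ (n : ℕ) (z : ℕ → ℝ) (i : ℕ) : tau n z (i + 1) = tau n z i * sig n z i := by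
  simp only [tau, sig]
  split_ifs
  · rcases tau_cases n z i with h | h <;> simp [h]
  · rfl

lemma tau_dvd (n : ℕ) (z : ℕ → ℝ) {i : ℕ} (h : n ∣ i) : tau n z i = 1 := by
  cases i with
  | zero => rfl
  | succ i => simp [tau, h]

lemma tau_per (n : ℕ) (z : ℕ → ℝ) : Periodic (tau n z) n := by
  intro i
  induction i with
  | zero => rw [zero_add, tau_dvd n z dvd_rfl]; rfl
  | succ i ih =>
    rw [show i + 1 + n = (i + n) + 1 by ring]
    simp only [tau, ih, Nat.add_mod_right]
    have : n ∣ i + n + 1 ↔ n ∣ i + 1 := by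
      rw [show i + n + 1 = (i + 1) + n by ring]; exact Nat.dvd_add_self_right
    simp only [this]

lemma sig_per (n : ℕ) (z : ℕ → ℝ) : Periodic (sig n z) n := by
  intro i
  have : n ∣ i + n + 1 ↔ n ∣ i + 1 := by
    rw [show i + n + 1 = (i + 1) + n by ring]; exact Nat.dvd_add_self_right
  simp only [sig, this, tau_per n z i, Nat.add_mod_right]

/-- The gap next to block `i`, on its side `τ i`. -/
def gap (n : ℕ) (z : ℕ → ℝ) (i : ℕ) : Set ℝ :=
  {x | |x| ≤ 2 ∧ (∀ k, k ≡ i [MOD n] → tau n z i * z k ≤ tau n z i * x) ∧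
    ∀ k l, ¬ k ≡ i [MOD n] → l ≡ i [MOD n] → tau n z i * z l < tau n z i * z k →
      tau n z i * x ≤ tau n z i * z k}

lemma gap_per (n : ℕ) (z : ℕ → ℝ) : Periodic (gap n z) n := by
  intro i
  have : ∀ k, k ≡ i + n [MOD n] ↔ k ≡ i [MOD n] := fun k => by simp [Nat.ModEq]
  simp only [gap, tau_per n z i, this]

lemma gap_compact (n : ℕ) (z : ℕ → ℝ) (i : ℕ) : IsCompact (gap n z i) := by
  refine (isCompact_Icc (a := -2) (b := 2)).of_isClosed_subset ?_ (fun x hx => abs_le.1 hx.1)
  simp only [gap, ofPred_and, ofPred_forall]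
  refine (isClosed_le continuous_abs continuous_const).inter (IsClosed.inter ?_ ?_)
  · exact isClosed_iInter fun k => isClosed_iInter fun _ =>
      isClosed_le continuous_const (by fun_prop)
  · exact isClosed_iInter fun k => isClosed_iInter fun l => isClosed_iInter fun _ =>
      isClosed_iInter fun _ => isClosed_iInter fun _ => isClosed_le (by fun_prop) continuous_const

lemma gap_ord (n : ℕ) (z : ℕ → ℝ) (i : ℕ) : OrdConnected (gap n z i) := by
  refine ⟨fun x hx y hy w hw => ⟨?_, fun k hk => ?_, fun k l hk hl h => ?_⟩⟩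
  · rw [abs_le]; exact ⟨(abs_le.1 hx.1).1.trans hw.1, hw.2.trans (abs_le.1 hy.1).2⟩
  · have h1 := hx.2.1 k hk
    have h2 := hy.2.1 k hk
    have := hw.1; have := hw.2
    rcases tau_cases n z i with h | h <;> rw [h] at h1 h2 ⊢ <;> linarith
  · have h1 := hx.2.2 k l hk hl h
    have h2 := hy.2.2 k l hk hl h
    have := hw.1; have := hw.2
    rcases tau_cases n z i with h | h <;> rw [h] at h1 h2 ⊢ <;> linarith

/-- The hypotheses on the orbit. -/
structure Orb (c : ℝ) (z : ℕ → ℝ) (N n : ℕ) : Prop where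
  hc : -2 ≤ c
  bd : ∀ k, |z k| ≤ 2
  z0 : z 0 = c
  step : ∀ k, z (k + 1) = q c (z k)
  eq_iff : ∀ k l, z k = z l ↔ k ≡ l [MOD N]
  crit : z (N - 1) = 0
  dvd : n ∣ N
  lt : n < N
  odd : Odd n
  blocks : Blocks n z

variable {c : ℝ} {z : ℕ → ℝ} {N n : ℕ}

lemma Orb.npos (h : Orb c z N n) : 0 < n := h.odd.pos

lemma Orb.ge (h : Orb c z N n) (k : ℕ) : c ≤ z k := by
  cases k with
  | zero => rw [h.z0]
  | succ k => rw [h.step, q]; nlinarith [sq_nonneg (z k)]

lemma Orb.mod_of_eq (h : Orb c z N n) {k l : ℕ} (e : z k = z l) : k ≡ l [MOD n] :=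
  ((h.eq_iff k l).1 e).of_dvd h.dvd

lemma Orb.crit_mod (h : Orb c z N n) {i : ℕ} : N - 1 ≡ i [MOD n] ↔ n ∣ i + 1 := by
  have hN : N - 1 + 1 = N := by have := h.lt; omega
  rw [← modEq_succ, hN, ← Nat.modEq_zero_iff_dvd]
  have : N ≡ 0 [MOD n] := Nat.modEq_zero_iff_dvd.2 h.dvd
  exact ⟨fun e => e.symm.trans this, fun e => this.trans e.symm⟩

lemma Orb.between (h : Orb c z N n) {t : ℝ} (ht : t = 1 ∨ t = -1) {i k l r : ℕ}
    (hk : k ≡ i [MOD n]) (hl : l ≡ i [MOD n]) (h1 : t * z k ≤ t * z r) (h2 : t * z r ≤ t * z l) :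
    r ≡ i [MOD n] := by
  rcases ht with rfl | rfl
  · exact (h.blocks k l r (hk.trans hl.symm) (by linarith) (by linarith)).trans hk
  · exact (h.blocks l k r (hl.trans hk.symm) (by linarith) (by linarith)).trans hl

lemma Orb.sign (h : Orb c z N n) {i k : ℕ} (hi : ¬ n ∣ i + 1) (hk : k ≡ i [MOD n]) :
    0 < sig n z i * z k := by
  have hm : i % n ≡ i [MOD n] := Nat.mod_modEq i n
  simp only [sig, hi, if_false]
  by_contra hcon
  apply hi
  rw [← h.crit_mod]
  have h0 : 0 ≤ sg (z (i % n)) * z (i % n) := by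
    unfold sg; split_ifs with e
    · linarith
    · linarith
  exact h.between (sg_cases (z (i % n))) hk hm (by rw [h.crit]; linarith)
    (by rw [h.crit]; linarith)

lemma Orb.ext (h : Orb c z N n) (i : ℕ) (t : ℝ) :
    ∃ l, l ≡ i [MOD n] ∧ ∀ k, k ≡ i [MOD n] → t * z k ≤ t * z l := by
  have hN : 0 < N := by have := h.lt; omega
  have hmod : ∀ k, k % N ≡ k [MOD n] := fun k => (Nat.mod_modEq k N).of_dvd h.dvd
  obtain ⟨l, hl, hmax⟩ := Finset.exists_max_image
    ((Finset.range N).filter fun l => l ≡ i [MOD n]) (fun l => t * z l)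
    ⟨i % N, by simp [Nat.mod_lt _ hN, hmod i]⟩
  refine ⟨l, (Finset.mem_filter.1 hl).2, fun k hk => ?_⟩
  have := hmax (k % N) (by simp [Nat.mod_lt _ hN, (hmod k).trans hk])
  rwa [(h.eq_iff _ _).2 (Nat.mod_modEq k N)] at this

lemma Orb.gap_nonempty (h : Orb c z N n) (i : ℕ) : (gap n z i).Nonempty := by
  obtain ⟨l, hl, hmax⟩ := h.ext i (tau n z i)
  refine ⟨z l, h.bd l, hmax, fun k l' hk hl' hlt => ?_⟩
  by_contra hcon
  exact hk (h.between (tau_cases n z i) hl' hl hlt.le (not_le.1 hcon).le)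

lemma Orb.gap_ge (h : Orb c z N n) {i : ℕ} {x : ℝ} (hx : x ∈ gap n z i) : c ≤ x := by
  rcases tau_cases n z i with e | e
  · have := hx.2.1 i (Nat.ModEq.refl i)
    rw [e] at this
    linarith [h.ge i]
  · have hi : ¬ 0 ≡ i [MOD n] := by
      intro h0
      rw [tau_dvd n z (Nat.modEq_zero_iff_dvd.1 h0.symm)] at e
      norm_num at e
    have hne : z 0 ≠ z i := fun e => hi (h.mod_of_eq e)
    have hlt : z 0 < z i := lt_of_le_of_ne (by rw [h.z0]; exact h.ge i) hne
    have := hx.2.2 0 i hi (Nat.ModEq.refl i) (by rw [e]; linarith)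
    rw [e, h.z0] at this
    linarith

lemma Orb.gap_back (h : Orb c z N n) {i : ℕ} {x : ℝ} (hx : x ∈ gap n z (i + 1)) :
    sig n z i * √(x - c) ∈ gap n z i := by
  have hxc := h.gap_ge hx
  set w := sig n z i * √(x - c) with hw
  have hs0 := Real.sqrt_nonneg (x - c)
  have hσ2 : sig n z i * sig n z i = 1 := by rcases sig_cases n z i with e | e <;> simp [e]
  have hσw : sig n z i * w = √(x - c) := by rw [hw, ← mul_assoc, hσ2, one_mul]
  have hw2 : x = w ^ 2 + c := by
    have : w ^ 2 = (sig n z i * sig n z i) * √(x - c) ^ 2 := by rw [hw]; ring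
    rw [this, hσ2, Real.sq_sqrt (by linarith)]; ring
  have hτ := tau_succ n z i
  refine ⟨?_, fun k hk => ?_, fun k l hk hl hlt => ?_⟩
  · have h1 : √(x - c) ≤ 2 := by
      rw [Real.sqrt_le_iff]
      exact ⟨by norm_num, by linarith [(abs_le.1 hx.1).2, h.hc]⟩
    rw [hw, abs_le]
    rcases sig_cases n z i with e | e <;> rw [e] <;> constructor <;> linarith
  · have h1 := hx.2.1 (k + 1) (modEq_succ.2 hk)
    rw [h.step, q, hτ, hw2] at h1
    by_cases hi : n ∣ i + 1
    · have e : sig n z i = tau n z i := by simp [sig, hi]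
      rw [e] at hσw hσ2
      rw [e, hσ2] at h1
      have h2 : (tau n z i * z k) ^ 2 ≤ (tau n z i * w) ^ 2 := by
        rw [mul_pow, mul_pow, pow_two (tau n z i), hσ2]; linarith
      exact (abs_le_of_sq_le_sq' h2 (by rw [hσw]; exact hs0)).2
    · have h2 := h.sign hi hk
      have h3 : 0 < sig n z i * (z k + w) := by rw [mul_add, hσw]; linarith
      by_contra hcon
      have := mul_pos (sub_pos.2 (not_le.1 hcon)) h3
      nlinarith
  · have hk1 : ¬ k + 1 ≡ i + 1 [MOD n] := fun e => hk (modEq_succ.1 e)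
    have fin : 0 ≤ sig n z i * z k →
        tau n z (i + 1) * x ≤ tau n z (i + 1) * z (k + 1) → tau n z i * w ≤ tau n z i * z k := by
      intro h2 h1
      rw [h.step, q, hτ, hw2] at h1
      by_contra hcon
      have hlt' := not_le.1 hcon
      have h3 : 0 < sig n z i * (z k + w) := by
        rw [mul_add, hσw]
        rcases (add_nonneg h2 hs0).lt_or_eq with e | e
        · exact e
        · exfalso
          have e1 : sig n z i * z k = 0 := by linarith
          have e2 : √(x - c) = 0 := by linarith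
          have e3 : z k = 0 := by
            rcases sig_cases n z i with e | e <;> rw [e] at e1 <;> linarith
          rw [hw, e2, e3] at hlt'
          simp at hlt'
      have := mul_pos (sub_pos.2 hlt') h3
      nlinarith
    by_cases hi : n ∣ i + 1
    · have e : sig n z i = tau n z i := by simp [sig, hi]
      have h0 : 0 ≤ tau n z i * z k := by
        by_contra hcon
        exact hk (h.between (tau_cases n z i) hl (h.crit_mod.2 hi) hlt.le
          (by rw [h.crit]; linarith))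
      refine fin (by rwa [e]) ?_
      have h0i : 0 ≡ i + 1 [MOD n] := (Nat.modEq_zero_iff_dvd.2 hi).symm
      refine hx.2.2 (k + 1) 0 hk1 h0i ?_
      rw [tau_dvd n z hi, one_mul, one_mul]
      refine lt_of_le_of_ne (by rw [h.z0]; exact h.ge _) (fun e => hk1 ?_)
      exact (h.mod_of_eq e).symm.trans h0i
    · have h2 := h.sign hi hl
      by_cases h3 : 0 ≤ sig n z i * z k
      · refine fin h3 (hx.2.2 (k + 1) (l + 1) hk1 (modEq_succ.2 hl) ?_)
        rw [h.step, h.step, q, q, hτ]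
        have := mul_pos (sub_pos.2 hlt) (show 0 < sig n z i * (z k + z l) by linarith)
        nlinarith
      · rcases sig_cases n z i with e | e <;> rcases tau_cases n z i with e' | e' <;>
          rw [e] at h2 h3 hσw <;> rw [e'] at hlt ⊢ <;> linarith

/-- The backward orbit along the inverse branches. -/
noncomputable def bk (c : ℝ) (n : ℕ) (z : ℕ → ℝ) (x : ℝ) : ℕ → ℝ
  | 0 => x
  | r + 1 => sig n z (n - (r + 1)) * √(bk c n z x r - c)

lemma Orb.exists_foot (h : Orb c z N n) : ∃ x : ℕ → ℝ, Periodic x n ∧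
    (∀ i, q c (x i) = x (i + 1)) ∧ ∀ i, x i ∈ gap n z i ∧ 0 ≤ sig n z i * x i := by
  have hcont : ∀ r, Continuous fun x => bk c n z x r := by
    intro r
    induction r with
    | zero => exact continuous_id
    | succ r ih => exact continuous_const.mul ((ih.sub continuous_const).sqrt)
  have hmem : ∀ x ∈ gap n z 0, ∀ r, r ≤ n → bk c n z x r ∈ gap n z (n - r) := by
    intro x hx r
    induction r with
    | zero => intro _; rw [Nat.sub_zero, (gap_per n z).eq]; exact hx
    | succ r ih =>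
      intro hr
      have := ih (by omega)
      rw [show n - r = n - (r + 1) + 1 by omega] at this
      exact h.gap_back this
  have hI := eq_Icc_of_connected_compact
    ⟨h.gap_nonempty 0, (gap_ord n z 0).isPreconnected⟩ (gap_compact n z 0)
  have hle : sInf (gap n z 0) ≤ sSup (gap n z 0) := by
    obtain ⟨x, hx⟩ := h.gap_nonempty 0
    rw [hI] at hx; exact hx.1.trans hx.2
  obtain ⟨x0, hx0, hfix⟩ := exists_mem_Icc_isFixedPt_of_mapsTo (hcont n).continuousOn hle
    (by rw [← hI]; intro x hx; simpa using hmem x hx n le_rfl)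
  rw [← hI] at hx0
  have hfix' : bk c n z x0 n = x0 := hfix
  have hit : ∀ i, i ≤ n → (q c)^[i] x0 = bk c n z x0 (n - i) := by
    intro i
    induction i with
    | zero => intro _; simp [hfix']
    | succ i ih =>
      intro hi
      have hσ2 : sig n z (n - (n - (i + 1) + 1)) ^ 2 = 1 := by
        rcases sig_cases n z (n - (n - (i + 1) + 1)) with e | e <;> simp [e]
      rw [iterate_succ_apply', ih (by omega), show n - i = n - (i + 1) + 1 by omega, bk, q,
        mul_pow, hσ2, Real.sq_sqrt (by linarith [h.gap_ge (hmem x0 hx0 (n - (i + 1)) (by omega))])]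
      ring
  have hper : Periodic (fun i => (q c)^[i] x0) n := by
    intro i
    simp only [iterate_add_apply, hit n le_rfl, Nat.sub_self, bk]
  refine ⟨fun i => (q c)^[i] x0, hper, fun i => (iterate_succ_apply' _ _ _).symm, fun i => ?_⟩
  have hi : i % n < n := Nat.mod_lt _ h.npos
  have hp : (q c)^[i % n] x0 = (q c)^[i] x0 := hper.map_mod_nat i
  beta_reduce
  rw [← hp, ← (gap_per n z).map_mod_nat i, ← (sig_per n z).map_mod_nat i]
  set j := i % n
  simp only [hit j hi.le]
  constructor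
  · have := hmem x0 hx0 (n - j) (by omega)
    rwa [show n - (n - j) = j by omega] at this
  · rw [show n - j = n - (j + 1) + 1 by omega, bk, show n - (n - (j + 1) + 1) = j by omega,
      ← mul_assoc]
    exact mul_nonneg (mul_self_nonneg _) (Real.sqrt_nonneg _)

lemma mem_uIcc_sign {t a x r : ℝ} (ht : t = 1 ∨ t = -1) (h : t * a ≤ t * x) :
    r ∈ uIcc a x ↔ t * a ≤ t * r ∧ t * r ≤ t * x := by
  rcases ht with rfl | rfl
  · rw [uIcc_of_le (by linarith), mem_Icc]; simp
  · rw [uIcc_of_ge (by linarith), mem_Icc]; simp [and_comm]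

lemma three_int {a1 x1 a2 x2 a3 x3 : ℝ} (h12 : a1 ∉ uIcc a2 x2) (h21 : a2 ∉ uIcc a1 x1)
    (h13 : a1 ∉ uIcc a3 x3) (h31 : a3 ∉ uIcc a1 x1) (h23 : a2 ∉ uIcc a3 x3)
    (h32 : a3 ∉ uIcc a2 x2) {u v : ℝ} (hu1 : u ∈ uIcc a1 x1) (hu2 : u ∈ uIcc a2 x2)
    (hv2 : v ∈ uIcc a2 x2) (hv3 : v ∈ uIcc a3 x3) : False := by
  simp only [mem_uIcc, not_or, not_and_or, not_le] at *
  rcases h12 with ⟨h | h, h' | h'⟩ <;> rcases h21 with ⟨g | g, g' | g'⟩ <;> (try linarith) <;>
  rcases hu1 with ⟨_, _⟩ | ⟨_, _⟩ <;> (try linarith) <;>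
  rcases hu2 with ⟨_, _⟩ | ⟨_, _⟩ <;> (try linarith) <;>
  rcases h23 with ⟨k | k, k' | k'⟩ <;>
  rcases h32 with ⟨l | l, l' | l'⟩ <;> (try linarith) <;>
  rcases hv2 with ⟨_, _⟩ | ⟨_, _⟩ <;> (try linarith) <;>
  rcases hv3 with ⟨_, _⟩ | ⟨_, _⟩ <;> (try linarith) <;>
  rcases h13 with ⟨m | m, m' | m'⟩ <;> (try linarith) <;>
  rcases h31 with ⟨o | o, o' | o'⟩ <;> linarith

theorem Orb.level (h : Orb c z N n) : ∃ a x τ, Level c z n a x τ := by
  obtain ⟨x, px, hfoot, hx⟩ := h.exists_foot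
  choose A hA hAmax using h.ext
  let a : ℕ → ℝ := fun i => z (A (i % n) (-tau n z i))
  have hAi : ∀ i, A (i % n) (-tau n z i) ≡ i [MOD n] := fun i =>
    (hA _ _).trans (Nat.mod_modEq i n)
  have hmin : ∀ i k, k ≡ i [MOD n] → tau n z i * a i ≤ tau n z i * z k := by
    intro i k hk
    have := hAmax (i % n) (-tau n z i) k (hk.trans (Nat.mod_modEq i n).symm)
    simp only [a]; linarith
  have hax : ∀ i, tau n z i * a i ≤ tau n z i * x i := fun i => (hx i).1.2.1 _ (hAi i)
  have hne : ∀ i k, x i ≠ z k := by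
    intro i k e
    have h1 : ∀ r, x (i + r) = z (k + r) := by
      intro r
      induction r with
      | zero => exact e
      | succ r ih => rw [← add_assoc, ← add_assoc, ← hfoot, ih, h.step]
    have h2 : z (k + n) = z (k + 0) := by rw [← h1, ← h1, px i, add_zero]
    have h3 := Nat.ModEq.add_left_cancel' k ((h.eq_iff _ _).1 h2)
    have := Nat.le_of_dvd h.npos (Nat.modEq_zero_iff_dvd.1 h3)
    have := h.lt
    omega
  have hxne : ∀ i, x i ≠ 0 := fun i => by rw [← h.crit]; exact hne i _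
  have hmem : ∀ i r, r ∈ uIcc (a i) (x i) ↔
      tau n z i * a i ≤ tau n z i * r ∧ tau n z i * r ≤ tau n z i * x i := fun i r =>
    mem_uIcc_sign (tau_cases n z i) (hax i)
  have hmaps : ∀ i, MapsTo (q c) (uIcc (a i) (x i)) (uIcc (a (i + 1)) (x (i + 1))) := by
    intro i r hr
    rw [hmem] at hr ⊢
    have hτ := tau_succ n z i
    have h1 := hmin (i + 1) _ (modEq_succ.2 (hAi i))
    have h2 := (hx (i + 1)).1.2.1 _ (modEq_succ.2 (hAi i))
    rw [h.step] at h1 h2
    change _ ≤ _ * q c (a i) at h1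
    change _ * q c (a i) ≤ _ at h2
    rw [← hfoot] at h2 ⊢
    have h3 := (hx i).2
    by_cases hi : n ∣ i + 1
    · have e : sig n z i = tau n z i := by simp [sig, hi]
      have h4 := hmin (i + 1) 0 (Nat.modEq_zero_iff_dvd.2 hi).symm
      rw [tau_dvd n z hi, h.z0] at *
      simp only [q] at h2 ⊢
      rw [e] at h3
      obtain ⟨hr1, hr2⟩ := hr
      constructor
      · nlinarith [sq_nonneg r]
      · rcases tau_cases n z i with e' | e' <;> rw [e'] at hr1 hr2 h3
        · have : -x i ≤ a i := (abs_le_of_sq_le_sq' (by linarith) (by linarith)).1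
          nlinarith
        · have : a i ≤ -x i :=
            (abs_le_of_sq_le_sq' (b := -x i) (by rw [neg_sq]; linarith) (by linarith)).2
          nlinarith
    · have h4 : 0 < sig n z i * a i := h.sign hi (hAi i)
      obtain ⟨hr1, hr2⟩ := hr
      have h5 : 0 ≤ sig n z i * r := by
        rcases sig_cases n z i with e | e <;> rcases tau_cases n z i with e' | e' <;>
          rw [e] at h3 h4 ⊢ <;> rw [e'] at hr1 hr2 <;> linarith
      rw [hτ] at h1 ⊢
      simp only [q] at h1 ⊢
      constructor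
      · have := mul_nonneg (sub_nonneg.2 hr1) (show 0 ≤ sig n z i * (r + a i) by linarith)
        nlinarith
      · have := mul_nonneg (sub_nonneg.2 hr2) (show 0 ≤ sig n z i * (r + x i) by linarith)
        nlinarith
  have hF1 : ∀ i l, ¬ l ≡ i [MOD n] → a l ∉ uIcc (a i) (x i) := by
    intro i l hl hm
    rw [hmem] at hm
    have hl' : ¬ A (l % n) (-tau n z l) ≡ i [MOD n] := fun e => hl ((hAi l).symm.trans e)
    have hlt : tau n z i * a i < tau n z i * a l := by
      refine lt_of_le_of_ne hm.1 (fun e => hl' ?_)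
      have : a i = a l := by rcases tau_cases n z i with e' | e' <;> rw [e'] at e <;> linarith
      exact (h.mod_of_eq this).symm.trans (hAi i)
    have := (hx i).1.2.2 _ _ hl' (hAi i) hlt
    apply hne i (A (l % n) (-tau n z l))
    have e : tau n z i * x i = tau n z i * a l := le_antisymm this hm.2
    change x i = a l
    rcases tau_cases n z i with e' | e' <;> rw [e'] at e <;> linarith
  have hdisj : ∀ i d, ¬ d ≡ 0 [MOD n] →
      Disjoint (uIcc (a i) (x i)) (uIcc (a (i + d)) (x (i + d))) := by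
    intro i d hd
    rw [Set.disjoint_left]
    intro u hu1 hu2
    have hit : ∀ r, (q c)^[r] u ∈ uIcc (a (i + r)) (x (i + r)) ∧
        (q c)^[r] u ∈ uIcc (a (i + d + r)) (x (i + d + r)) := by
      intro r
      induction r with
      | zero => exact ⟨hu1, hu2⟩
      | succ r ih =>
        rw [iterate_succ_apply']
        exact ⟨hmaps _ ih.1, hmaps _ ih.2⟩
    have n1 : ∀ j, ¬ j + d ≡ j [MOD n] := fun j e =>
      hd (Nat.ModEq.add_left_cancel' j (by simpa using e))
    have n2 : ¬ i + d + d ≡ i [MOD n] := by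
      intro e
      have e' : 2 * d ≡ 0 [MOD n] :=
        Nat.ModEq.add_left_cancel' i (by rw [two_mul, ← add_assoc]; simpa using e)
      apply hd
      rw [Nat.modEq_zero_iff_dvd] at e' ⊢
      exact (Nat.Coprime.dvd_of_dvd_mul_left (Nat.coprime_two_right.2 h.odd) e')
    exact three_int (hF1 _ _ fun e => n1 i e.symm) (hF1 _ _ (n1 i))
      (hF1 _ _ fun e => n2 e.symm) (hF1 _ _ n2) (hF1 _ _ fun e => n1 (i + d) e.symm)
      (hF1 _ _ (n1 (i + d))) hu1 hu2 (hit d).1 (hit d).2
  refine ⟨a, x, tau n z, tau_cases n z, fun i => ?_, px, tau_per n z, fun i => ⟨_, rfl⟩, hne,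
    fun k => ?_, hmaps, hfoot, fun i => ?_, fun i l hil => ?_⟩
  · simp only [a, tau_per n z i, Nat.add_mod_right]
  · rw [hmem]; exact ⟨hmin k k (Nat.ModEq.refl k), (hx k).1.2.1 k (Nat.ModEq.refl k)⟩
  · rw [tau_succ]
    congr 1
    have h3 := (hx i).2
    rcases lt_or_gt_of_ne (hxne i) with e | e
    · rw [sg_neg e.le]
      rcases sig_cases n z i with e' | e'
      · rw [e'] at h3; linarith
      · exact e'
    · rw [sg_pos e]
      rcases sig_cases n z i with e' | e'
      · exact e'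
      · rw [e'] at h3; linarith
  · rcases le_total i l with e | e
    · obtain ⟨d, rfl⟩ := Nat.exists_eq_add_of_le e
      exact hdisj i d fun e' => hil (by simpa using (e'.add_left i).symm)
    · obtain ⟨d, rfl⟩ := Nat.exists_eq_add_of_le e
      exact (hdisj l d fun e' => hil (by simpa using e'.add_left l)).symm

theorem exists_levels (m : ℕ) (hm : 1 ≤ m) : ∃ (c : ℝ) (N : ℕ), 0 < N ∧
    (q c)^[N - 1] c = 0 ∧ ∀ j, j < m → ∃ a x τ, Level c (fun k => (q c)^[k] c) (3 ^ j) a x τ := by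
  obtain ⟨c, h1, hb, heq, hB⟩ := exists_poly m hm
  have hz : ∀ k, (q c)^[k] c = (q c)^[k + 1] 0 := fun k => by
    rw [iterate_succ_apply]; simp [q]
  have hN : 0 < 3 ^ m := by positivity
  have hcrit : (q c)^[3 ^ m - 1] c = 0 := by
    rw [hz, show 3 ^ m - 1 + 1 = 3 ^ m by omega]
    exact (heq (3 ^ m) 0).2 (by simp [Nat.ModEq])
  refine ⟨c, 3 ^ m, hN, hcrit, fun j hj => Orb.level (N := 3 ^ m) ⟨h1.le, fun k => ?_, rfl,
    fun k => iterate_succ_apply' _ _ _, fun k l => ?_, hcrit, pow_dvd_pow _ hj.le,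
    Nat.pow_lt_pow_right (by norm_num) hj, Odd.pow (by decide), fun k l r e1 e2 e3 => ?_⟩⟩
  · rw [hz]; exact hb _
  · rw [hz, hz, heq, modEq_succ]
  · simp only [hz] at e2 e3
    exact modEq_succ.1 (hB j hj.le (k + 1) (l + 1) (r + 1) (modEq_succ.2 e1) e2 e3)

end Pool.Agent.MP_a0c272_an
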