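import Pool.Agent.MP_a0c272_an.Psi
import Pool.Agent.MP_a0c272_an.Feet

/-!
The tree of one renormalisation level.
-/

namespace Pool.Agent.MP_a0c272_an

open Set Topology Function unitInterval Filter OnePoint

lemma periodic_finite {α : Type*} {f : ℕ → α} {n : ℕ} (hn : 0 < n) (h : Periodic f n) :
    (range f).Finite := by
  refine ((finite_lt_nat n).image f).subset ?_
  rintro _ ⟨k, rfl⟩
  exact ⟨k % n, Nat.mod_lt _ hn, h.map_mod_nat k⟩

lemma sg_mul_abs (x : ℝ) : sg x * |x| = x := by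
  unfold sg; split_ifs with h
  · rw [abs_of_pos h, one_mul]
  · rw [abs_of_nonpos (not_lt.1 h)]; ring

variable {c : ℝ} {z : ℕ → ℝ} {n : ℕ} {a x τ : ℕ → ℝ}

/-- The arcs of a level. -/
noncomputable def Level.arcs (h : Level c z n a x τ) (i : Fin n) : C(I, Sph) :=
  ⟨arcF (a i) (x i) (τ i), continuous_arcF _ _ (h.sgn i)⟩

lemma Level.star (h : Level c z n a x τ) (hn : 0 < n) : IsStar h.arcs ∞ := by
  have hre : ∀ i y, y ∈ range (arcF (a i) (x i) (τ i)) →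
      y = ∞ ∨ ∃ w : ℂ, y = w ∧ w.re ∈ uIcc (a i) (x i) := by
    intro i y hy
    rcases mem_range_arcF.1 hy with e | ⟨r, hr, e⟩ | ⟨v, -, e⟩
    · exact Or.inl e
    · exact Or.inr ⟨r, e, hr⟩
    · exact Or.inr ⟨_, e, right_mem_uIcc⟩
  refine ⟨hn, fun i => arcF_inj ?_ (h.sgn i), fun i => arcF_one _ _ _, fun i j s t e => ?_⟩
  · obtain ⟨k, hk⟩ := h.a_mem i
    rw [hk]; exact (h.x_ne i k).symm
  · by_cases hij : i = j
    · exact Or.inl hij
    right
    rcases hre i _ ⟨s, rfl⟩ with e1 | ⟨w, e1, hw⟩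
    · exact e1
    rcases hre j _ ⟨t, rfl⟩ with e2 | ⟨w', e2, hw'⟩
    · exact e.trans e2
    have : w = w' := coe_injective (e1.symm.trans (e.trans e2))
    subst this
    exact absurd hw' (disjoint_left.1
      (h.disj i j fun e' => hij (Fin.ext (e'.eq_of_lt_of_lt i.2 j.2))) hw)

lemma Level.sub (h : Level c z n a x τ) (hn : 0 < n) (i : ℕ) :
    range (arcF (a i) (x i) (τ i)) ⊆ ⋃ j, range (h.arcs j) := by
  rw [← h.pa.map_mod_nat i, ← h.px.map_mod_nat i, ← h.pτ.map_mod_nat i]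
  exact subset_iUnion (fun j => range (h.arcs j)) ⟨i % n, Nat.mod_lt _ hn⟩

lemma Level.invariant (h : Level c z n a x τ) (hn : 0 < n) {δ : ℝ} (hδ : 0 < δ)
    (hx : ∀ i, δ ≤ |x i|) :
    MapsTo (fun y => quad c (Psi hδ (1, y))) (⋃ j, range (h.arcs j)) (⋃ j, range (h.arcs j)) := by
  intro y hy
  obtain ⟨i, hi⟩ := mem_iUnion.1 hy
  refine h.sub hn (i + 1) (mem_range_arcF.2 ?_)
  rcases mem_range_arcF.1 hi with rfl | ⟨r, hr, rfl⟩ | ⟨v, hv, rfl⟩
  · exact Or.inl rfl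
  · exact Or.inr (Or.inl ⟨q c r, h.maps i hr, by simp only [Psi_real, quad_real, q]⟩)
  · obtain ⟨ρ, hρ, e⟩ := quad_Psi_leg hδ c (hx i) (τ i * v)
    refine Or.inr (Or.inr ⟨ρ * |x i| * v, by positivity, ?_⟩)
    simp only [e]
    congr 2
    · exact h.foot i
    · rw [h.side]
      conv_lhs => rw [← sg_mul_abs (x i)]
      ring

lemma Level.tree (h : Level c z n a x τ) (hn : 0 < n) (hfin : (range z).Finite) :
    ∃ G : Graph, (G.V : Set Sph) = insert ∞ (range fun k => ((z k : ℂ) : Sph)) ∧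
      G.carrier = ⋃ j, range (h.arcs j) := by
  refine (h.star hn).graph (Finite.insert _ ?_) (Or.inl rfl) (fun i => ?_) ?_
  · exact (hfin.image fun r : ℝ => ((r : ℂ) : Sph)).subset (by
      rintro _ ⟨k, rfl⟩; exact ⟨_, ⟨k, rfl⟩, rfl⟩)
  · obtain ⟨k, hk⟩ := h.a_mem i
    exact Or.inr ⟨k, by beta_reduce; rw [← hk]; exact (arcF_zero _ _ _).symm⟩
  · rintro _ (rfl | ⟨k, rfl⟩)
    · exact h.sub hn 0 (mem_range_arcF.2 (Or.inl rfl))
    · exact h.sub hn k (mem_range_arcF.2 (Or.inr (Or.inl ⟨_, h.cover k, rfl⟩)))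

lemma HomeoRel.symm {P : Set Sph} {G H : Graph} (h : HomeoRel P G H) (hP : P ⊆ G.carrier) :
    HomeoRel P H G := by
  obtain ⟨f, hf⟩ := h
  refine ⟨f.symm, fun y hy => ?_⟩
  have : f ⟨y, hP hy⟩ = y := Subtype.ext (hf _ hy)
  conv_lhs => rw [← this, Homeomorph.symm_apply_apply]

lemma Isotopic.homeoRel {P : Set Sph} {G H : Graph} (h : Isotopic P G H) : HomeoRel P G H := by
  obtain ⟨Ψ, ⟨h1, -, h3⟩, h4⟩ := h
  refine ⟨((h1 1).homeomorph.image G.carrier).trans (Homeomorph.setCongr h4), fun y hy => ?_⟩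
  exact h3 1 y hy

lemma card_le_of_homeoRel {P : Set Sph} {G H : Graph} {n n' : ℕ} {γ : Fin n → C(I, Sph)}
    {γ' : Fin n' → C(I, Sph)} (h : IsStar γ ∞) (h' : IsStar γ' ∞) (hP : ∞ ∈ P)
    (hG : G.carrier = ⋃ i, range (γ i)) (hH : H.carrier = ⋃ i, range (γ' i))
    (hr : HomeoRel P G H) : n' ≤ n := by
  obtain ⟨f, hf⟩ := hr
  let g := (Homeomorph.setCongr hG.symm).trans f
  refine h.card_le h' (fun y => (g y : Sph)) (continuous_subtype_val.comp g.continuous)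
    (Subtype.val_injective.comp g.injective) ?_ fun y hy => ?_
  · rw [← hH]
    exact (g.surjective.range_comp _).trans Subtype.range_coe
  · exact (hf ⟨y, hG.ge y.2⟩ (by change (y : Sph) ∈ P; rw [hy]; exact hP)).trans hy

end Pool.Agent.MP_a0c272_an
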