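import Pool.Agent.MP_a0c272_an.Real2

/-!
The pattern of the airplane tuned with itself `m` times.
-/

namespace Pool.Agent.MP_a0c272_an

/-- Tuning a pattern with the airplane. -/
noncomputable def tune (M : ℕ → ℝ) (k : ℕ) : ℝ :=
  if k % 3 = 0 then -(M (k / 3) / 8)
  else if k % 3 = 1 then -2 + M (k / 3 + 1) / 8 else 1 - M (k / 3 + 1) / 8

lemma tune0 (M : ℕ → ℝ) (a : ℕ) : tune M (3 * a) = -(M a / 8) := by
  simp [tune]

lemma tune1 (M : ℕ → ℝ) (a : ℕ) : tune M (3 * a + 1) = -2 + M (a + 1) / 8 := by
  have h1 : (3 * a + 1) % 3 = 1 := by omega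
  have h2 : (3 * a + 1) / 3 = a := by omega
  simp [tune, h1, h2]

lemma tune2 (M : ℕ → ℝ) (a : ℕ) : tune M (3 * a + 2) = 1 - M (a + 1) / 8 := by
  have h1 : (3 * a + 2) % 3 = 2 := by omega
  have h2 : (3 * a + 2) / 3 = a := by omega
  simp [tune, h1, h2]

lemma tune3 (M : ℕ → ℝ) (a : ℕ) : tune M (3 * a + 2 + 1) = -(M (a + 1) / 8) := by
  rw [show 3 * a + 2 + 1 = 3 * (a + 1) by ring, tune0]

lemma three_cases (k : ℕ) : ∃ a, k = 3 * a ∨ k = 3 * a + 1 ∨ k = 3 * a + 2 :=
  ⟨k / 3, by omega⟩

lemma modEq3 {n a b r s : ℕ} (hr : r < 3) (hs : s < 3) :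
    3 * a + r ≡ 3 * b + s [MOD 3 * n] ↔ r = s ∧ a ≡ b [MOD n] := by
  constructor
  · intro h
    have h3 : 3 * a + r ≡ 3 * b + s [MOD 3] := h.of_mul_right n
    have hrs : r = s := by unfold Nat.ModEq at h3; omega
    subst hrs
    refine ⟨rfl, ?_⟩
    have := Nat.ModEq.add_right_cancel' r h
    exact Nat.ModEq.mul_left_cancel' (by norm_num) this
  · rintro ⟨rfl, h⟩
    exact (h.mul_left' 3).add_right r

lemma modEq_succ {n a b : ℕ} : a + 1 ≡ b + 1 [MOD n] ↔ a ≡ b [MOD n] :=
  ⟨fun h => Nat.ModEq.add_right_cancel' 1 h, fun h => h.add_right 1⟩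

/-- Residue classes modulo `n` are order intervals of the pattern. -/
def Blocks (n : ℕ) (M : ℕ → ℝ) : Prop :=
  ∀ k l r, k ≡ l [MOD n] → M k ≤ M r → M r ≤ M l → r ≡ k [MOD n]

theorem exists_model (m : ℕ) : ∃ M : ℕ → ℝ, (∀ k, |M k| ≤ 3) ∧ IsModel (3 ^ m) M ∧
    ∀ j, j ≤ m → Blocks (3 ^ j) M := by
  induction m with
  | zero =>
    refine ⟨fun _ => 0, by simp, ⟨rfl, by simp [Nat.modEq_one], by simp, by simp⟩, ?_⟩
    intro j hj k l r _ _ _
    rw [Nat.le_zero.1 hj]; exact Nat.modEq_one
  | succ m ih =>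
    obtain ⟨M, hb, hM, hB⟩ := ih
    have hb1 : ∀ k, -3 ≤ M k := fun k => (abs_le.1 (hb k)).1
    have hb2 : ∀ k, M k ≤ 3 := fun k => (abs_le.1 (hb k)).2
    refine ⟨tune M, fun k => ?_, ⟨?_, fun k l => ?_, fun k l => ?_, fun k l => ?_⟩, ?_⟩
    · obtain ⟨a, rfl | rfl | rfl⟩ := three_cases k
      · rw [tune0, abs_le]; constructor <;> linarith [hb1 a, hb2 a]
      · rw [tune1, abs_le]; constructor <;> linarith [hb1 (a + 1), hb2 (a + 1)]
      · rw [tune2, abs_le]; constructor <;> linarith [hb1 (a + 1), hb2 (a + 1)]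
    · have := tune0 M 0
      simpa [hM.zero] using this
    · rw [pow_succ']
      obtain ⟨a, ha⟩ := three_cases k
      obtain ⟨b, hb⟩ := three_cases l
      have := hb1 a; have := hb2 a; have := hb1 (a + 1); have := hb2 (a + 1)
      have := hb1 b; have := hb2 b; have := hb1 (b + 1); have := hb2 (b + 1)
      have e0 : ∀ x : ℕ, 3 * x = 3 * x + 0 := fun x => rfl
      have f0 := hM.eq_iff a b
      have f1 := hM.eq_iff (a + 1) (b + 1)
      rw [modEq_succ] at f1
      rcases ha with rfl | rfl | rfl <;> rcases hb with rfl | rfl | rfl <;>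
        simp only [tune0, tune1, tune2]
      · rw [e0 a, e0 b, modEq3 (by norm_num) (by norm_num), ← f0]
        constructor
        · intro h; exact ⟨rfl, by linarith⟩
        · intro h; rw [h.2]
      · rw [e0 a, modEq3 (by norm_num) (by norm_num)]
        constructor
        · intro h; linarith
        · intro h; omega
      · rw [e0 a, modEq3 (by norm_num) (by norm_num)]
        constructor
        · intro h; linarith
        · intro h; omega
      · rw [e0 b, modEq3 (by norm_num) (by norm_num)]
        constructor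
        · intro h; linarith
        · intro h; omega
      · rw [modEq3 (by norm_num) (by norm_num), ← f1]
        constructor
        · intro h; exact ⟨rfl, by linarith⟩
        · intro h; rw [h.2]
      · rw [modEq3 (by norm_num) (by norm_num)]
        constructor
        · intro h; linarith
        · intro h; omega
      · rw [e0 b, modEq3 (by norm_num) (by norm_num)]
        constructor
        · intro h; linarith
        · intro h; omega
      · rw [modEq3 (by norm_num) (by norm_num)]
        constructor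
        · intro h; linarith
        · intro h; omega
      · rw [modEq3 (by norm_num) (by norm_num), ← f1]
        constructor
        · intro h; exact ⟨rfl, by linarith⟩
        · intro h; rw [h.2]
    · obtain ⟨a, ha⟩ := three_cases k
      obtain ⟨b, hb⟩ := three_cases l
      have := hb1 a; have := hb2 a; have := hb1 (a + 1); have := hb2 (a + 1)
      have := hb1 b; have := hb2 b; have := hb1 (b + 1); have := hb2 (b + 1)
      have f := hM.pos b a
      rcases ha with rfl | rfl | rfl <;> rcases hb with rfl | rfl | rfl <;>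
        simp only [tune0, tune1, tune2, tune3, show ∀ x : ℕ, 3 * x + 1 + 1 = 3 * x + 2 from
          fun x => rfl] <;> intro h1 h2 <;> first
        | linarith
        | linarith [f (by linarith) (by linarith)]
    · obtain ⟨a, ha⟩ := three_cases k
      obtain ⟨b, hb⟩ := three_cases l
      have := hb1 a; have := hb2 a; have := hb1 (a + 1); have := hb2 (a + 1)
      have := hb1 b; have := hb2 b; have := hb1 (b + 1); have := hb2 (b + 1)
      have f := hM.neg b a
      rcases ha with rfl | rfl | rfl <;> rcases hb with rfl | rfl | rfl <;>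
        simp only [tune0, tune1, tune2, tune3, show ∀ x : ℕ, 3 * x + 1 + 1 = 3 * x + 2 from
          fun x => rfl] <;> intro h1 h2 <;> first
        | linarith
        | linarith [f (by linarith) (by linarith)]
    · intro j hj k l r hkl h1 h2
      rcases j with _ | j
      · exact Nat.modEq_one
      rw [pow_succ'] at hkl ⊢
      have hBj := hB j (by omega)
      obtain ⟨a, ha⟩ := three_cases k
      obtain ⟨b, hb⟩ := three_cases l
      obtain ⟨d, hd⟩ := three_cases r
      have := hb1 a; have := hb2 a; have := hb1 (a + 1); have := hb2 (a + 1)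
      have := hb1 b; have := hb2 b; have := hb1 (b + 1); have := hb2 (b + 1)
      have := hb1 d; have := hb2 d; have := hb1 (d + 1); have := hb2 (d + 1)
      have h3 : k ≡ l [MOD 3] := hkl.of_mul_right _
      unfold Nat.ModEq at h3
      rcases ha with rfl | rfl | rfl <;> rcases hb with rfl | rfl | rfl <;>
        (try omega) <;> rcases hd with rfl | rfl | rfl <;>
        simp only [tune0, tune1, tune2] at h1 h2 <;> (try linarith)
      · have hab : a ≡ b [MOD 3 ^ j] := Nat.ModEq.mul_left_cancel' (by norm_num) hkl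
        exact ((hBj b a d hab.symm (by linarith) (by linarith)).trans hab.symm).mul_left' 3
      · have hab := ((modEq3 (by norm_num) (by norm_num)).1 hkl).2
        have := hBj (a + 1) (b + 1) (d + 1) (modEq_succ.2 hab) (by linarith) (by linarith)
        exact (modEq3 (by norm_num) (by norm_num)).2 ⟨rfl, modEq_succ.1 this⟩
      · have hab := ((modEq3 (by norm_num) (by norm_num)).1 hkl).2
        have := hBj (b + 1) (a + 1) (d + 1) (modEq_succ.2 hab.symm) (by linarith) (by linarith)
        exact (modEq3 (by norm_num) (by norm_num)).2 ⟨rfl, (modEq_succ.1 this).trans hab.symm⟩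

/-- The real polynomial with `m` nested primitive renormalisations. -/
theorem exists_poly (m : ℕ) (hm : 1 ≤ m) : ∃ c : ℝ, -2 < c ∧ (∀ k, |(q c)^[k] 0| ≤ 2) ∧
    (∀ k l, (q c)^[k] 0 = (q c)^[l] 0 ↔ k ≡ l [MOD 3 ^ m]) ∧
    ∀ j, j ≤ m → Blocks (3 ^ j) (fun k => (q c)^[k] 0) := by
  obtain ⟨M, -, hM, hB⟩ := exists_model m
  have h2 : 2 ≤ 3 ^ m := by
    calc 2 ≤ 3 ^ 1 := by norm_num
      _ ≤ 3 ^ m := Nat.pow_le_pow_right (by norm_num) hm
  obtain ⟨c, h1, hb, hlt⟩ := realize h2 hM
  have hle : ∀ k l, M k ≤ M l ↔ (q c)^[k] 0 ≤ (q c)^[l] 0 := fun k l => by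
    rw [← not_lt, ← not_lt, hlt]
  refine ⟨c, h1, hb, fun k l => ?_, fun j hj k l r a b d => ?_⟩
  · rw [← hM.eq_iff, le_antisymm_iff, le_antisymm_iff, hle, hle]
  · exact hB j hj k l r a ((hle _ _).2 b) ((hle _ _).2 d)

end Pool.Agent.MP_a0c272_an
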