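import Pool.Agent.MP_a0c272_an.Star

/-!
The straightening isotopy, the arcs, critical values.
-/

namespace Pool.Agent.MP_a0c272_an

open Set Topology Function unitInterval Filter OnePoint

lemma tendsto_infty_of {α : Type*} {l : Filter α} {g : α → Sph}
    (h : ∀ R : ℝ, ∀ᶠ a in l, g a = ∞ ∨ ∃ z : ℂ, g a = z ∧ R < ‖z‖) : Tendsto g l (𝓝 ∞) := by
  rw [hasBasis_nhds_infty.tendsto_right_iff]
  rintro K ⟨-, hK⟩
  obtain ⟨R, hR⟩ := hK.isBounded.subset_closedBall 0
  filter_upwards [h R] with a ha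
  rcases ha with e | ⟨z, e, hz⟩
  · exact Or.inr e
  · refine Or.inl ⟨z, fun hzK => ?_, e.symm⟩
    have := hR hzK
    rw [mem_closedBall_zero_iff] at this
    linarith

lemma eventually_infty (R : ℝ) :
    ∀ᶠ x : Sph in 𝓝 ∞, x = ∞ ∨ ∃ z : ℂ, x = z ∧ R < ‖z‖ := by
  filter_upwards [hasBasis_nhds_infty.mem_of_mem (i := Metric.closedBall (0 : ℂ) R)
    ⟨Metric.isClosed_closedBall, isCompact_closedBall _ _⟩] with x hx
  rcases hx with ⟨z, hz, rfl⟩ | e
  · exact Or.inr ⟨z, rfl, by simpa using hz⟩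
  · exact Or.inl e

lemma continuous_map_family {F : I × ℂ → ℂ} (hF : Continuous F) (hn : ∀ t z, ‖z‖ ≤ ‖F (t, z)‖) :
    Continuous fun p : I × Sph => OnePoint.map (fun z => F (p.1, z)) p.2 := by
  rw [continuous_iff_continuousAt]
  rintro ⟨t, x⟩
  induction x using OnePoint.rec with
  | infty =>
    refine tendsto_infty_of fun R => ?_
    filter_upwards [(continuous_snd.tendsto (t, (∞ : Sph))).eventually (eventually_infty R)]
      with p hp
    rcases hp with e | ⟨z, e, hz⟩
    · left; rw [e]; rfl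
    · right; exact ⟨F (p.1, z), by rw [e]; rfl, hz.trans_le (hn _ _)⟩
  | coe z =>
    have he : IsOpenEmbedding (Prod.map (id : I → I) ((↑) : ℂ → Sph)) :=
      IsOpenEmbedding.id.prodMap isOpenEmbedding_coe
    have := (he.continuousAt_iff (g := fun p : I × Sph => OnePoint.map (fun z => F (p.1, z)) p.2)
      (x := (t, z))).1 ((continuous_coe.comp hF).continuousAt)
    exact this

/-- The horizontal displacement. -/
noncomputable def hh (δ w u : ℝ) : ℝ := u * √(1 + w ^ 2 / max (u ^ 2) (δ ^ 2))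

/-- The planar isotopy. -/
noncomputable def psi (δ t : ℝ) (z : ℂ) : ℂ := ⟨hh δ (t * z.im) z.re, z.im⟩

variable {δ : ℝ}

lemma hh_zero (δ u : ℝ) : hh δ 0 u = u := by simp [hh]

lemma hh_fac (δ w u : ℝ) : 1 ≤ √(1 + w ^ 2 / max (u ^ 2) (δ ^ 2)) := by
  rw [Real.one_le_sqrt]
  have : 0 ≤ w ^ 2 / max (u ^ 2) (δ ^ 2) := by positivity
  linarith

lemma hh_abs (δ w u : ℝ) : |u| ≤ |hh δ w u| := by
  have := hh_fac δ w u
  rw [hh, abs_mul, abs_of_nonneg (Real.sqrt_nonneg _)]
  nlinarith [abs_nonneg u]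

lemma continuous_hh (hδ : 0 < δ) : Continuous fun p : ℝ × ℝ => hh δ p.1 p.2 := by
  unfold hh
  refine continuous_snd.mul (Continuous.sqrt (continuous_const.add (Continuous.div
    (by fun_prop) (by fun_prop) fun p => ?_)))
  exact (lt_max_of_lt_right (by positivity)).ne'

lemma hh_sq (δ w u : ℝ) : hh δ w u ^ 2 = u ^ 2 + w ^ 2 * (u ^ 2 / max (u ^ 2) (δ ^ 2)) := by
  rw [hh, mul_pow, Real.sq_sqrt (by positivity)]; ring

lemma hh_inj (hδ : 0 < δ) (w : ℝ) : Injective (hh δ w) := by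
  have mono : ∀ s s' : ℝ, 0 ≤ s → s ≤ s' → s / max s (δ ^ 2) ≤ s' / max s' (δ ^ 2) := by
    intro s s' h0 h1
    have hd : 0 < δ ^ 2 := by positivity
    rw [div_le_div_iff₀ (lt_max_of_lt_right hd) (lt_max_of_lt_right hd)]
    rcases le_total s (δ ^ 2) with a | a <;> rcases le_total s' (δ ^ 2) with b | b <;>
      simp only [max_eq_left, max_eq_right, a, b] <;> nlinarith
  intro u u' e
  have e2 : hh δ w u ^ 2 = hh δ w u' ^ 2 := by rw [e]
  rw [hh_sq, hh_sq] at e2
  have e3 : u ^ 2 = u' ^ 2 := by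
    rcases le_total (u ^ 2) (u' ^ 2) with a | a
    · have := mul_le_mul_of_nonneg_left (mono _ _ (sq_nonneg u) a) (sq_nonneg w)
      linarith
    · have := mul_le_mul_of_nonneg_left (mono _ _ (sq_nonneg u') a) (sq_nonneg w)
      linarith
  unfold hh at e
  rw [e3] at e
  exact mul_right_cancel₀ (by linarith [hh_fac δ w u']) e

lemma hh_surj (hδ : 0 < δ) (w : ℝ) : Surjective (hh δ w) := by
  intro y
  have hc : Continuous (hh δ w) := (continuous_hh hδ).comp (Continuous.prodMk_right w)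
  have h1 : hh δ w (-|y|) ≤ y := by
    have := hh_fac δ w (-|y|)
    unfold hh; nlinarith [abs_nonneg y, neg_abs_le y]
  have h2 : y ≤ hh δ w |y| := by
    have := hh_fac δ w |y|
    unfold hh; nlinarith [abs_nonneg y, le_abs_self y]
  exact mem_range_of_exists_le_of_exists_ge hc ⟨_, h1⟩ ⟨_, h2⟩

lemma psi_bij (hδ : 0 < δ) (t : ℝ) : Bijective (psi δ t) := by
  constructor
  · intro z z' e
    have h1 : z.im = z'.im := (congrArg Complex.im e : (psi δ t z).im = (psi δ t z').im)
    have h2 : hh δ (t * z.im) z.re = hh δ (t * z'.im) z'.re := congrArg Complex.re e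
    rw [h1] at h2
    exact Complex.ext (hh_inj hδ _ h2) h1
  · intro y
    obtain ⟨u, hu⟩ := hh_surj hδ (t * y.im) y.re
    exact ⟨⟨u, y.im⟩, Complex.ext hu rfl⟩

lemma psi_norm (δ t : ℝ) (z : ℂ) : ‖z‖ ≤ ‖psi δ t z‖ := by
  rw [← sq_le_sq₀ (norm_nonneg _) (norm_nonneg _), Complex.sq_norm, Complex.sq_norm,
    Complex.normSq_apply, Complex.normSq_apply]
  have := sq_le_sq.2 (hh_abs δ (t * z.im) z.re)
  simp only [psi]
  nlinarith

lemma continuous_psi (hδ : 0 < δ) : Continuous fun p : I × ℂ => psi δ p.1 p.2 := by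
  have : (fun p : I × ℂ => psi δ p.1 p.2) =
      fun p => (hh δ (p.1 * p.2.im) p.2.re : ℂ) + p.2.im * Complex.I := by
    funext p; apply Complex.ext <;> simp [psi]
  rw [this]
  have h2 : Continuous fun p : I × ℂ => hh δ (p.1 * p.2.im) p.2.re :=
    (continuous_hh hδ).comp (f := fun p : I × ℂ => ((p.1 : ℝ) * p.2.im, p.2.re)) (by fun_prop)
  fun_prop

/-- The isotopy of the sphere. -/
noncomputable def Psi (hδ : 0 < δ) : C(I × Sph, Sph) :=
  ⟨fun p => OnePoint.map (fun z => psi δ p.1 z) p.2,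
    continuous_map_family (continuous_psi hδ) fun t z => psi_norm δ t z⟩

lemma Psi_infty (hδ : 0 < δ) (t : I) : Psi hδ (t, ∞) = ∞ := rfl

lemma Psi_coe (hδ : 0 < δ) (t : I) (z : ℂ) : Psi hδ (t, z) = (psi δ t z : ℂ) := rfl

lemma Psi_real (hδ : 0 < δ) (t : I) (r : ℝ) : Psi hδ (t, ((r : ℂ) : Sph)) = (r : ℂ) := by
  rw [Psi_coe]; congr 1; apply Complex.ext <;> simp [psi, hh_zero]

lemma Psi_zero (hδ : 0 < δ) (x : Sph) : Psi hδ (0, x) = x := by
  induction x using OnePoint.rec with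
  | infty => rfl
  | coe z => rw [Psi_coe]; congr 1; apply Complex.ext <;> simp [psi, hh_zero]

lemma Psi_homeo (hδ : 0 < δ) (t : I) : IsHomeomorph fun x => Psi hδ (t, x) := by
  rw [isHomeomorph_iff_continuous_bijective]
  refine ⟨(Psi hδ).continuous.comp (Continuous.prodMk_right t), fun x y e => ?_, fun y => ?_⟩
  · induction x using OnePoint.rec <;> induction y using OnePoint.rec
    · rfl
    · exact absurd e (infty_ne_coe _)
    · exact absurd e (coe_ne_infty _)
    · exact congrArg _ ((psi_bij hδ t).1 (coe_injective e))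
  · induction y using OnePoint.rec with
    | infty => exact ⟨∞, rfl⟩
    | coe y =>
      obtain ⟨z, hz⟩ := (psi_bij hδ t).2 y
      exact ⟨z, congrArg _ hz⟩

lemma quad_real (c r : ℝ) : quad c ((r : ℂ) : Sph) = ((r ^ 2 + c : ℝ) : ℂ) := by
  simp [quad]

lemma quad_Psi_leg (hδ : 0 < δ) (c : ℝ) {x : ℝ} (hx : δ ≤ |x|) (v : ℝ) :
    ∃ ρ : ℝ, 0 ≤ ρ ∧ quad c (Psi hδ (1, ((⟨x, v⟩ : ℂ) : Sph))) =
      ((⟨x ^ 2 + c, ρ * (x * v)⟩ : ℂ) : Sph) := by
  have h1 : δ ^ 2 ≤ x ^ 2 := by rw [← sq_abs x]; exact pow_le_pow_left₀ hδ.le hx 2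
  have h2 : x ^ 2 ≠ 0 := by
    have : 0 < δ ^ 2 := by positivity
    linarith
  refine ⟨2 * √(1 + v ^ 2 / max (x ^ 2) (δ ^ 2)), by positivity, ?_⟩
  rw [Psi_coe, quad, map_some]
  congr 1
  have h3 := hh_sq δ v x
  rw [max_eq_left h1, div_self h2] at h3
  apply Complex.ext
  · simp only [psi, pow_two, Icc.coe_one, one_mul, Complex.add_re, Complex.mul_re,
      Complex.ofReal_re] at h3 ⊢
    linarith
  · simp only [psi, pow_two, Icc.coe_one, one_mul, Complex.add_im, Complex.mul_im,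
      Complex.ofReal_im, hh]
    ring

lemma critVal_comp (f : Sph → Sph) {ψ : Sph → Sph} (hψ : IsHomeomorph ψ) :
    critVal (fun x => f (ψ x)) = critVal f := by
  have key : ∀ x, (∃ U ∈ 𝓝 x, InjOn (fun x => f (ψ x)) U) ↔ ∃ U ∈ 𝓝 (ψ x), InjOn f U := by
    intro x
    constructor
    · rintro ⟨U, hU, h⟩
      refine ⟨ψ '' U, hψ.isOpenMap.image_mem_nhds hU, ?_⟩
      rintro _ ⟨a, ha, rfl⟩ _ ⟨b, hb, rfl⟩ e
      rw [h ha hb e]
    · rintro ⟨U, hU, h⟩
      exact ⟨ψ ⁻¹' U, hψ.continuous.continuousAt hU, fun a ha b hb e =>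
        hψ.injective (h ha hb e)⟩
  ext y
  simp only [critVal, mem_image, mem_ofPred_eq, key]
  constructor
  · rintro ⟨x, hx, rfl⟩; exact ⟨ψ x, hx, rfl⟩
  · rintro ⟨x, hx, rfl⟩
    obtain ⟨x, rfl⟩ := hψ.surjective x
    exact ⟨x, hx, rfl⟩

lemma critVal_quad (c : ℂ) : critVal (quad c) = {(c : Sph), ∞} := by
  have pair : ∀ (U : Set Sph) (z : ℂ), z ≠ 0 → (z : Sph) ∈ U → ((-z : ℂ) : Sph) ∈ U →
      ¬ InjOn (quad c) U := by
    intro U z hz h1 h2 h
    have := coe_injective (h h1 h2 (by simp [quad]))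
    exact hz (by linear_combination this / 2)
  have key : {x : Sph | ¬ ∃ U ∈ 𝓝 x, InjOn (quad c) U} = {((0 : ℂ) : Sph), ∞} := by
    ext x
    simp only [mem_ofPred_eq, mem_insert_iff, mem_singleton_iff]
    constructor
    · intro h
      induction x using OnePoint.rec with
      | infty => exact Or.inr rfl
      | coe z =>
        left
        by_contra hz
        have hz' : z ≠ 0 := fun e => hz (by rw [e])
        apply h
        refine ⟨(↑) '' Metric.ball z ‖z‖, isOpenMap_coe.image_mem_nhds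
          (Metric.ball_mem_nhds _ (norm_pos_iff.2 hz')), ?_⟩
        rintro _ ⟨a, ha, rfl⟩ _ ⟨b, hb, rfl⟩ e
        have e' : a ^ 2 + c = b ^ 2 + c := coe_injective e
        rcases sq_eq_sq_iff_eq_or_eq_neg.1 (add_right_cancel e') with e2 | e2
        · rw [e2]
        · exfalso
          rw [mem_ball_iff_norm] at ha hb
          have h1 := norm_add_le (a - z) (b - z)
          rw [show a - z + (b - z) = -2 * z by rw [e2]; ring, norm_mul] at h1
          simp at h1
          linarith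
    · rintro (rfl | rfl) ⟨U, hU, h⟩
      · have h1 : (↑) ⁻¹' U ∈ 𝓝 (0 : ℂ) := continuous_coe.continuousAt hU
        obtain ⟨ε, hε, h2⟩ := Metric.mem_nhds_iff.1 h1
        refine pair U (ε / 2 : ℝ) (by simp [hε.ne']) (h2 ?_) (h2 ?_) h <;>
          simp [abs_of_pos hε, hε]
      · obtain ⟨K, ⟨-, hK⟩, h2⟩ := hasBasis_nhds_infty.mem_iff.1 hU
        obtain ⟨R, hR0, hR⟩ := hK.isBounded.subset_ball_lt 0 0
        refine pair U R (by simp [hR0.ne']) (h2 (Or.inl ⟨_, fun e => ?_, rfl⟩))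
          (h2 (Or.inl ⟨_, fun e => ?_, rfl⟩)) h <;>
        · have := hR e
          simp [abs_of_pos hR0] at this
  rw [critVal, key, image_pair]
  simp [quad]

lemma postcrit_eq {g : Sph → Sph} {z : ℕ → Sph} (hfin : (range z).Finite)
    (hc : critVal g = {z 0, ∞}) (hz : ∀ k, g (z k) = z (k + 1)) (hi : g ∞ = ∞) :
    postcrit g = insert ∞ (range z) := by
  apply Subset.antisymm
  · refine sInter_subset_of_mem ⟨(hfin.insert _).isClosed, ?_, ?_⟩
    · rintro _ (rfl | ⟨k, rfl⟩)
      · exact Or.inl hi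
      · exact Or.inr ⟨k + 1, (hz k).symm⟩
    · rw [hc]
      rintro _ (rfl | rfl)
      · exact Or.inr ⟨0, rfl⟩
      · exact Or.inl rfl
  · refine subset_sInter fun X hX => ?_
    obtain ⟨-, h1, h2⟩ := hX
    rw [hc] at h2
    rintro _ (rfl | ⟨k, rfl⟩)
    · exact h2 (Or.inr rfl)
    · induction k with
      | zero => exact h2 (Or.inl rfl)
      | succ k ih => rw [← hz]; exact h1 ih

/-- The arc from `a` along the real line to `x` and then vertically to infinity. -/
noncomputable def arcF (a x τ : ℝ) (t : I) : Sph :=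
  if (t : ℝ) = 1 then ∞ else
    ((⟨a + min (2 * (t : ℝ)) 1 * (x - a), τ * (max (2 * (t : ℝ) - 1) 0 / (1 - t))⟩ : ℂ) : Sph)

lemma continuous_arcF (a x : ℝ) {τ : ℝ} (hτ : τ = 1 ∨ τ = -1) : Continuous (arcF a x τ) := by
  rw [continuous_iff_continuousAt]
  intro t
  by_cases ht : (t : ℝ) = 1
  · rw [ContinuousAt, show arcF a x τ t = ∞ by simp [arcF, ht]]
    refine tendsto_infty_of fun R => ?_
    have hpos : 0 < min (1 / 4) (1 / (2 * |R| + 2)) := by positivity
    have : ∀ᶠ s : I in 𝓝 t, 1 - (s : ℝ) < min (1 / 4) (1 / (2 * |R| + 2)) :=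
      (by fun_prop : Continuous fun s : I => 1 - (s : ℝ)).continuousAt.eventually
        (gt_mem_nhds (by simp only [ht, sub_self]; exact hpos))
    filter_upwards [this] with s hs
    by_cases h1 : (s : ℝ) = 1
    · left; simp [arcF, h1]
    · right
      refine ⟨_, if_neg h1, lt_of_lt_of_le ?_ (Complex.abs_im_le_norm _)⟩
      rw [lt_min_iff] at hs
      have h2 : 0 < 1 - (s : ℝ) := sub_pos.2 (lt_of_le_of_ne s.2.2 h1)
      have h3 : |τ| = 1 := by rcases hτ with e | e <;> simp [e]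
      simp only
      rw [abs_mul, h3, one_mul, abs_of_nonneg (by positivity), max_eq_left (by linarith),
        lt_div_iff₀ h2]
      have h4 := hs.2
      rw [lt_div_iff₀ (by positivity)] at h4
      nlinarith [le_abs_self R, abs_nonneg R]
  · have hev : ∀ᶠ s : I in 𝓝 t, (s : ℝ) ≠ 1 :=
      continuous_subtype_val.continuousAt.eventually_ne ht
    have : ContinuousAt (fun s : I => (((a + min (2 * (s : ℝ)) 1 * (x - a) : ℝ) +
        (τ * (max (2 * (s : ℝ) - 1) 0 / (1 - s)) : ℝ) * Complex.I : ℂ) : Sph)) t := by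
      refine continuous_coe.continuousAt.comp ?_
      have h2 : ContinuousAt (fun s : I => max (2 * (s : ℝ) - 1) 0 / (1 - s)) t :=
        ContinuousAt.div (by fun_prop) (by fun_prop) (sub_ne_zero.2 (Ne.symm ht))
      refine ContinuousAt.add (by fun_prop) (ContinuousAt.mul ?_ continuousAt_const)
      exact Complex.continuous_ofReal.continuousAt.comp (continuousAt_const.mul h2)
    refine this.congr (hev.mono fun s hs => ?_)
    simp only [arcF, if_neg hs]
    congr 1
    apply Complex.ext <;> simp only [Complex.add_re, Complex.ofReal_re, Complex.mul_re,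
      Complex.I_re, Complex.ofReal_im, Complex.I_im, Complex.add_im, Complex.mul_im] <;> ring

lemma arcF_one (a x τ : ℝ) : arcF a x τ 1 = ∞ := by simp [arcF]

lemma arcF_zero (a x τ : ℝ) : arcF a x τ 0 = (a : ℂ) := by
  simp only [arcF, Icc.coe_zero, zero_ne_one, if_false]
  congr 1
  apply Complex.ext <;> simp

lemma arcF_inj {a x τ : ℝ} (hax : a ≠ x) (hτ : τ = 1 ∨ τ = -1) : Injective (arcF a x τ) := by
  intro s t e
  unfold arcF at e
  split_ifs at e with h1 h2 h2
  · exact Subtype.ext (h1.trans h2.symm)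
  · exact absurd e (infty_ne_coe _)
  · exact absurd e (coe_ne_infty _)
  have e' := coe_injective e
  have e1 : a + min (2 * (s : ℝ)) 1 * (x - a) = a + min (2 * (t : ℝ)) 1 * (x - a) :=
    congrArg Complex.re e'
  have e2 : τ * (max (2 * (s : ℝ) - 1) 0 / (1 - s)) = τ * (max (2 * (t : ℝ) - 1) 0 / (1 - t)) :=
    congrArg Complex.im e'
  have e3 := mul_right_cancel₀ (sub_ne_zero.2 hax.symm) (add_left_cancel e1)
  have e4 := mul_left_cancel₀ (by rcases hτ with e | e <;> simp [e]) e2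
  have hs : 0 < 1 - (s : ℝ) := sub_pos.2 (lt_of_le_of_ne s.2.2 h1)
  have ht : 0 < 1 - (t : ℝ) := sub_pos.2 (lt_of_le_of_ne t.2.2 h2)
  rw [div_eq_div_iff hs.ne' ht.ne'] at e4
  apply Subtype.ext
  rcases le_total (2 * (s : ℝ)) 1 with a1 | a1 <;> rcases le_total (2 * (t : ℝ)) 1 with a2 | a2
  · rw [min_eq_left a1, min_eq_left a2] at e3; linarith
  · rw [min_eq_left a1, min_eq_right a2] at e3
    rw [max_eq_right (by linarith), max_eq_left (by linarith)] at e4
    nlinarith
  · rw [min_eq_right a1, min_eq_left a2] at e3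
    rw [max_eq_left (by linarith), max_eq_right (by linarith)] at e4
    nlinarith
  · rw [max_eq_left (by linarith), max_eq_left (by linarith)] at e4
    nlinarith

lemma mem_range_arcF {a x τ : ℝ} {y : Sph} : y ∈ range (arcF a x τ) ↔
    y = ∞ ∨ (∃ r ∈ uIcc a x, y = (r : ℂ)) ∨ ∃ v : ℝ, 0 ≤ v ∧ y = ((⟨x, τ * v⟩ : ℂ) : Sph) := by
  constructor
  · rintro ⟨t, rfl⟩
    unfold arcF
    split_ifs with h1
    · exact Or.inl rfl
    right
    have ht : 0 < 1 - (t : ℝ) := sub_pos.2 (lt_of_le_of_ne t.2.2 h1)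
    rcases le_total (2 * (t : ℝ)) 1 with a1 | a1
    · left
      refine ⟨a + 2 * t * (x - a), ?_, ?_⟩
      · rw [← segment_eq_uIcc, segment_eq_image']
        exact ⟨2 * t, ⟨by linarith [t.2.1], a1⟩, rfl⟩
      · rw [min_eq_left a1, max_eq_right (by linarith)]
        congr 1
        apply Complex.ext
        · rfl
        · simp only [Complex.ofReal_im]; ring
    · right
      refine ⟨max (2 * (t : ℝ) - 1) 0 / (1 - t), by positivity, ?_⟩
      rw [min_eq_right a1]
      congr 2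
      ring
  · rintro (rfl | ⟨r, hr, rfl⟩ | ⟨v, hv, rfl⟩)
    · exact ⟨1, arcF_one _ _ _⟩
    · rw [← segment_eq_uIcc, segment_eq_image'] at hr
      obtain ⟨s, hs, rfl⟩ := hr
      refine ⟨⟨s / 2, by linarith [hs.1], by linarith [hs.2]⟩, ?_⟩
      have h1 : s / 2 ≠ 1 := by linarith [hs.2]
      simp only [arcF, if_neg h1]
      rw [min_eq_left (by linarith [hs.2]), max_eq_right (by linarith [hs.2])]
      congr 1
      apply Complex.ext
      · simp only [Complex.ofReal_re, smul_eq_mul]; ring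
      · simp only [Complex.ofReal_im]; ring
    · have h0 : 0 < 2 + v := by linarith
      have h2 : (1 + v) / (2 + v) < 1 := by rw [div_lt_one h0]; linarith
      have h3 : 1 ≤ 2 * ((1 + v) / (2 + v)) := by
        rw [← mul_div_assoc, one_le_div h0]; linarith
      refine ⟨⟨(1 + v) / (2 + v), by positivity, h2.le⟩, ?_⟩
      simp only [arcF, if_neg h2.ne]
      rw [min_eq_right h3, max_eq_left (by linarith)]
      congr 2
      · ring
      · congr 1
        rw [div_eq_iff (by linarith)]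
        field_simp
        ring

end Pool.Agent.MP_a0c272_an
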