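import Mathlib

/-!
Realisation of a unimodal cyclic order pattern by the critical orbit of a real quadratic map.
-/

namespace Pool.Agent.MP_a0c272_an

open Filter Topology Set

/-- The real quadratic map. -/
def q (c x : ℝ) : ℝ := x ^ 2 + c

/-- A unimodal cyclic order pattern of period `N`. -/
structure IsModel (N : ℕ) (M : ℕ → ℝ) : Prop where
  zero : M 0 = 0
  eq_iff : ∀ k l, M k = M l ↔ k ≡ l [MOD N]
  neg : ∀ k l, M k < M l → M l ≤ 0 → M (l + 1) < M (k + 1)
  pos : ∀ k l, 0 ≤ M k → M k < M l → M (k + 1) < M (l + 1)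

/-- A sign. -/
noncomputable def sg (x : ℝ) : ℝ := if 0 < x then 1 else -1

lemma sg_pos {x : ℝ} (h : 0 < x) : sg x = 1 := by simp [sg, h]
lemma sg_neg {x : ℝ} (h : x ≤ 0) : sg x = -1 := by simp [sg, not_lt.2 h]
lemma sg_cases (x : ℝ) : sg x = 1 ∨ sg x = -1 := by unfold sg; split_ifs <;> simp
lemma sg_sq (x : ℝ) : sg x ^ 2 = 1 := by rcases sg_cases x with h | h <;> simp [h]

/-- The backward orbit of `0` along the itinerary of the pattern. -/
noncomputable def back (N : ℕ) (M : ℕ → ℝ) (c : ℝ) : ℕ → ℝ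
  | 0 => 0
  | r + 1 => sg (M (N - (r + 1))) * √(back N M c r - c)

lemma continuous_back (N : ℕ) (M : ℕ → ℝ) (r : ℕ) : Continuous fun c => back N M c r := by
  induction r with
  | zero => simpa [back] using continuous_const
  | succ r ih =>
    simp only [back]
    exact continuous_const.mul ((ih.sub continuous_id).sqrt)

lemma abs_back_le (N : ℕ) (M : ℕ → ℝ) {c : ℝ} (hc : -2 ≤ c) (r : ℕ) : |back N M c r| ≤ 2 := by
  induction r with
  | zero => simp [back]
  | succ r ih =>
    have h1 : √(back N M c r - c) ≤ 2 := by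
      rw [Real.sqrt_le_iff]
      constructor
      · norm_num
      · have := (abs_le.1 ih).2; nlinarith
    have h0 := Real.sqrt_nonneg (back N M c r - c)
    simp only [back]
    rcases sg_cases (M (N - (r + 1))) with h | h <;> rw [h, abs_le] <;> constructor <;> linarith

lemma abs_back_lt (N : ℕ) (M : ℕ → ℝ) (r : ℕ) : |back N M (-2) r| < 2 := by
  induction r with
  | zero => simp [back]
  | succ r ih =>
    have h1 : √(back N M (-2) r - (-2)) < 2 := by
      rw [Real.sqrt_lt' (by norm_num)]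
      have := (abs_lt.1 ih).2; nlinarith
    have h0 := Real.sqrt_nonneg (back N M (-2) r - (-2))
    simp only [back]
    rcases sg_cases (M (N - (r + 1))) with h | h <;> rw [h, abs_lt] <;> constructor <;> linarith

/-- The `k`-th point of the backward orbit. -/
noncomputable def yy (N : ℕ) (M : ℕ → ℝ) (c : ℝ) (k : ℕ) : ℝ := back N M c (N - k)

lemma yy_N (N : ℕ) (M : ℕ → ℝ) (c : ℝ) : yy N M c N = 0 := by simp [yy, back]

lemma yy_step (N : ℕ) (M : ℕ → ℝ) (c : ℝ) {k : ℕ} (hk : k < N) :
    yy N M c k = sg (M k) * √(yy N M c (k + 1) - c) := by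
  have h1 : N - k = (N - (k + 1)) + 1 := by omega
  have h2 : N - (N - (k + 1) + 1) = k := by omega
  unfold yy
  rw [h1, back, h2]

lemma yy_sq (N : ℕ) (M : ℕ → ℝ) (c : ℝ) {k : ℕ} (hk : k < N) (h : c ≤ yy N M c (k + 1)) :
    q c (yy N M c k) = yy N M c (k + 1) := by
  rw [yy_step N M c hk, q, mul_pow, sg_sq, Real.sq_sqrt (by linarith)]
  ring

lemma continuous_yy (N : ℕ) (M : ℕ → ℝ) (k : ℕ) : Continuous fun c => yy N M c k :=
  continuous_back N M _

variable {N : ℕ} {M : ℕ → ℝ}

lemma IsModel.at_N (h : IsModel N M) : M N = 0 := by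
  rw [← h.zero, h.eq_iff]; simp [Nat.ModEq]

lemma IsModel.ne_zero (h : IsModel N M) {k : ℕ} (h1 : 1 ≤ k) (h2 : k < N) : M k ≠ 0 := by
  intro h0
  rw [← h.zero, h.eq_iff] at h0
  have := (Nat.modEq_zero_iff_dvd.1 h0)
  have := Nat.le_of_dvd (by omega) this
  omega

lemma IsModel.min_one (h : IsModel N M) (l : ℕ) (hl : M l ≠ 0) : M 1 < M (l + 1) := by
  rcases lt_or_gt_of_ne hl with h1 | h1
  · exact h.neg l 0 (by rw [h.zero]; exact h1) (by rw [h.zero])
  · exact h.pos 0 l (by rw [h.zero]) (by rw [h.zero]; exact h1)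

lemma yy_order (h : IsModel N M) {c : ℝ} (hc : ∀ k, 2 ≤ k → k ≤ N → c < yy N M c k) :
    ∀ k l, 1 ≤ k → k ≤ N → 1 ≤ l → l ≤ N → M k < M l → yy N M c k < yy N M c l := by
  have hpos : ∀ k, 1 ≤ k → k ≤ N → 0 < M k → 0 < yy N M c k := by
    intro k h1 h2 h3
    have hk : k < N := lt_of_le_of_ne h2 (fun e => by rw [e, h.at_N] at h3; exact lt_irrefl _ h3)
    rw [yy_step N M c hk, sg_pos h3, one_mul]
    exact Real.sqrt_pos.2 (by linarith [hc (k + 1) (by omega) (by omega)])
  have hneg : ∀ k, 1 ≤ k → k ≤ N → M k < 0 → yy N M c k < 0 := by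
    intro k h1 h2 h3
    have hk : k < N := lt_of_le_of_ne h2 (fun e => by rw [e, h.at_N] at h3; exact lt_irrefl _ h3)
    rw [yy_step N M c hk, sg_neg h3.le]
    have := Real.sqrt_pos.2 (show 0 < yy N M c (k + 1) - c by
      linarith [hc (k + 1) (by omega) (by omega)])
    linarith
  have hzero : ∀ k, 1 ≤ k → k ≤ N → M k = 0 → yy N M c k = 0 := by
    intro k h1 h2 h3
    have hk : k = N := by
      by_contra hne
      exact h.ne_zero h1 (by omega) h3
    rw [hk, yy_N]
  have key : ∀ d k l, 1 ≤ k → k ≤ N → 1 ≤ l → l ≤ N → N ≤ k + d → M k ≠ M l →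
      (M k < M l → yy N M c k < yy N M c l) ∧ (M l < M k → yy N M c l < yy N M c k) := by
    intro d
    induction d with
    | zero =>
      intro k l h1 h2 h3 h4 h5 _
      have hk : k = N := by omega
      subst hk
      rw [h.at_N, yy_N]
      exact ⟨hpos l h3 h4, hneg l h3 h4⟩
    | succ d ih =>
      intro k l h1 h2 h3 h4 h5 hne
      have main : ∀ a b, 1 ≤ a → a ≤ N → 1 ≤ b → b ≤ N →
          (a < N → b < N → (M (a + 1) < M (b + 1) → yy N M c (a + 1) < yy N M c (b + 1)) ∧
            (M (b + 1) < M (a + 1) → yy N M c (b + 1) < yy N M c (a + 1))) →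
          M a < M b → yy N M c a < yy N M c b := by
        intro a b ha1 ha2 hb1 hb2 hab hlt
        rcases lt_trichotomy (M a) 0 with ha | ha | ha
        · rcases lt_trichotomy (M b) 0 with hb | hb | hb
          · have haN : a < N :=
              lt_of_le_of_ne ha2 (fun e => by rw [e, h.at_N] at ha; exact lt_irrefl _ ha)
            have hbN : b < N :=
              lt_of_le_of_ne hb2 (fun e => by rw [e, h.at_N] at hb; exact lt_irrefl _ hb)
            have := (hab haN hbN).2 (h.neg a b hlt hb.le)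
            rw [yy_step N M c haN, yy_step N M c hbN, sg_neg ha.le, sg_neg hb.le]
            have := Real.sqrt_lt_sqrt (x := yy N M c (b + 1) - c) (y := yy N M c (a + 1) - c)
              (by linarith [hc (b + 1) (by omega) (by omega)]) (by linarith)
            linarith
          · rw [hzero b hb1 hb2 hb]; exact hneg a ha1 ha2 ha
          · linarith [hneg a ha1 ha2 ha, hpos b hb1 hb2 hb]
        · rw [hzero a ha1 ha2 ha]; exact hpos b hb1 hb2 (by linarith)
        · have hb : 0 < M b := by linarith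
          have haN : a < N :=
            lt_of_le_of_ne ha2 (fun e => by rw [e, h.at_N] at ha; exact lt_irrefl _ ha)
          have hbN : b < N :=
            lt_of_le_of_ne hb2 (fun e => by rw [e, h.at_N] at hb; exact lt_irrefl _ hb)
          have := (hab haN hbN).1 (h.pos a b ha.le hlt)
          rw [yy_step N M c haN, yy_step N M c hbN, sg_pos ha, sg_pos hb]
          have := Real.sqrt_lt_sqrt (x := yy N M c (a + 1) - c) (y := yy N M c (b + 1) - c)
            (by linarith [hc (a + 1) (by omega) (by omega)]) (by linarith)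
          linarith
      have hstep : k < N → l < N →
          (M (k + 1) < M (l + 1) → yy N M c (k + 1) < yy N M c (l + 1)) ∧
            (M (l + 1) < M (k + 1) → yy N M c (l + 1) < yy N M c (k + 1)) := by
        intro hk hl
        refine ih (k + 1) (l + 1) (by omega) (by omega) (by omega) (by omega) (by omega) ?_
        intro e
        apply hne
        rw [h.eq_iff] at e ⊢
        exact Nat.ModEq.add_right_cancel' 1 e
      exact ⟨main k l h1 h2 h3 h4 hstep,
        main l k h3 h4 h1 h2 (fun a b => (hstep b a).symm)⟩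
  intro k l h1 h2 h3 h4 hlt
  exact (key N k l h1 h2 h3 h4 (by omega) hlt.ne).1 hlt

/-- The difference quotient of an iterate. -/
noncomputable def dq (c u v : ℝ) (r : ℕ) : ℝ :=
  ∏ i ∈ Finset.range r, ((q c)^[i] u + (q c)^[i] v)

lemma iter_sub (c u v : ℝ) (r : ℕ) : (q c)^[r] u - (q c)^[r] v = (u - v) * dq c u v r := by
  induction r with
  | zero => simp [dq]
  | succ r ih =>
    rw [Function.iterate_succ_apply', Function.iterate_succ_apply', dq, Finset.prod_range_succ,
      ← mul_assoc]
    unfold dq at ih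
    rw [← ih]
    simp only [q]; ring

lemma tendsto_iter {α : Type*} {l : Filter α} {c u : α → ℝ} {c0 u0 : ℝ}
    (hc : Tendsto c l (𝓝 c0)) (hu : Tendsto u l (𝓝 u0)) (r : ℕ) :
    Tendsto (fun a => (q (c a))^[r] (u a)) l (𝓝 ((q c0)^[r] u0)) := by
  induction r with
  | zero => simpa using hu
  | succ r ih =>
    simp only [Function.iterate_succ_apply', q]
    exact (ih.pow 2).add hc

lemma tendsto_dq {α : Type*} {l : Filter α} {c u v : α → ℝ} {c0 u0 v0 : ℝ}
    (hc : Tendsto c l (𝓝 c0)) (hu : Tendsto u l (𝓝 u0)) (hv : Tendsto v l (𝓝 v0)) (r : ℕ) :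
    Tendsto (fun a => dq (c a) (u a) (v a) r) l (𝓝 (dq c0 u0 v0 r)) :=
  tendsto_finsetProd _ fun i _ => (tendsto_iter hc hu i).add (tendsto_iter hc hv i)

lemma yy_iter (N : ℕ) (M : ℕ → ℝ) (c : ℝ) (hc : ∀ k, 2 ≤ k → k ≤ N → c ≤ yy N M c k)
    {k : ℕ} (hk : 1 ≤ k) (r : ℕ) (hr : k + r ≤ N) :
    (q c)^[r] (yy N M c k) = yy N M c (k + r) := by
  induction r with
  | zero => simp
  | succ r ih =>
    rw [Function.iterate_succ_apply', ih (by omega),
      yy_sq N M c (by omega) (hc _ (by omega) (by omega))]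
    rfl

end Pool.Agent.MP_a0c272_an
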