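import Pool.Agent.MP_a0c272_an.Real

/-!
The realisation theorem.
-/

namespace Pool.Agent.MP_a0c272_an

open Filter Topology Set Function

variable {N : ℕ} {M : ℕ → ℝ}

lemma yy_eq_iter {c0 : ℝ} (h1 : yy N M c0 1 = c0) (hge : ∀ k, 1 ≤ k → k ≤ N → c0 ≤ yy N M c0 k)
    {k : ℕ} (hk1 : 1 ≤ k) (hk : k ≤ N) : (q c0)^[k] 0 = yy N M c0 k := by
  obtain ⟨r, rfl⟩ : ∃ r, k = r + 1 := ⟨k - 1, by omega⟩
  rw [iterate_succ_apply, show q c0 0 = yy N M c0 1 by simp [q, h1],
    yy_iter N M c0 (fun k a b => hge k (by omega) b) le_rfl r (by omega), add_comm]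

lemma nondeg (h : IsModel N M) {c0 : ℝ} (hc0 : -2 < c0)
    (hgood : ∀ c, -2 ≤ c → c < c0 → ∀ k, 1 ≤ k → k ≤ N → c < yy N M c k)
    (h1 : yy N M c0 1 = c0) (hge : ∀ k, 1 ≤ k → k ≤ N → c0 ≤ yy N M c0 k) :
    ∀ k, 2 ≤ k → k ≤ N → c0 < yy N M c0 k := by
  intro k0 hk2 hkN
  by_contra hcon
  have hk0 : yy N M c0 k0 = c0 := le_antisymm (not_lt.1 hcon) (hge k0 (by omega) hkN)
  have hN : (q c0)^[N] 0 = 0 := by rw [yy_eq_iter h1 hge (by omega) le_rfl, yy_N]
  have hk0' : (q c0)^[k0 - 1] 0 = 0 := by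
    have := yy_sq N M c0 (k := k0 - 1) (by omega)
      (hge _ (by omega) (by omega))
    rw [show k0 - 1 + 1 = k0 by omega, hk0, q] at this
    rw [yy_eq_iter h1 hge (by omega) (by omega)]
    exact pow_eq_zero_iff (two_ne_zero) |>.1 (by linarith)
  set p := minimalPeriod (q c0) 0 with hp
  have hper : IsPeriodicPt (q c0) N 0 := hN
  have hper' : IsPeriodicPt (q c0) (k0 - 1) 0 := hk0'
  have hp0 : 0 < p := hper.minimalPeriod_pos (by omega)
  have hple : p ≤ k0 - 1 := hper'.minimalPeriod_le (by omega)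
  obtain ⟨n, hn⟩ : p ∣ N := hper.minimalPeriod_dvd
  have hn2 : 2 ≤ n := by
    by_contra hlt
    have : n ≤ 1 := by omega
    have : p * n ≤ p * 1 := Nat.mul_le_mul_left _ this
    omega
  have hpp : (q c0)^[p] 0 = 0 := isPeriodicPt_minimalPeriod (q c0) 0
  have hjp : ∀ j, (q c0)^[j * p] 0 = 0 := fun j =>
    (isPeriodicPt_minimalPeriod (q c0) 0).const_mul j
  have hq0 : q c0 0 = c0 := by simp [q]
  set D0 := dq c0 c0 c0 (p - 1) with hD0
  have hD0ne : D0 ≠ 0 := by
    rw [hD0, dq, Finset.prod_ne_zero_iff]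
    intro i hi
    rw [Finset.mem_range] at hi
    have : (q c0)^[i + 1] 0 ≠ 0 :=
      not_isPeriodicPt_of_pos_of_lt_minimalPeriod (f := q c0) (x := 0) (by omega) (by omega)
    rw [iterate_succ_apply, hq0] at this
    intro e
    exact this (by linarith)
  set σ := sg D0 with hσ
  have hσD : 0 < σ * D0 := by
    rcases lt_or_gt_of_ne hD0ne with e | e
    · rw [hσ, sg_neg e.le]; linarith
    · rw [hσ, sg_pos e]; linarith
  have hσ2 : σ ^ 2 = 1 := sg_sq _
  set K := σ * D0 + 1 with hK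
  have hjle : ∀ j, j < n → j * p + p ≤ N := by
    intro j hj
    have : (j + 1) * p ≤ n * p := Nat.mul_le_mul_right _ hj
    rw [hn]; nlinarith
  let l := 𝓝[<] c0
  have hid : Tendsto (fun c : ℝ => c) l (𝓝 c0) := tendsto_nhdsWithin_of_tendsto_nhds tendsto_id
  have hu : ∀ j, j < n → Tendsto (fun c => yy N M c (j * p + 1)) l (𝓝 c0) := by
    intro j hj
    have e : yy N M c0 (j * p + 1) = c0 := by
      rw [← yy_eq_iter h1 hge (by omega) (by have := hjle j hj; omega), iterate_succ_apply',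
        hjp, hq0]
    have := ((continuous_yy N M (j * p + 1)).tendsto c0)
    rw [e] at this
    exact tendsto_nhdsWithin_of_tendsto_nhds this
  have ea : ∀ᶠ c in l, -2 ≤ c ∧ c < c0 := by
    filter_upwards [self_mem_nhdsWithin, hid.eventually (lt_mem_nhds hc0)] with c a b
    exact ⟨b.le, a⟩
  have eb : ∀ᶠ c in l, ∀ j ∈ Finset.range n,
      0 < σ * dq c (yy N M c (j * p + 1)) c (p - 1) ∧
        σ * dq c (yy N M c (j * p + 1)) c (p - 1) < K := by
    rw [eventually_all_finset]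
    intro j hj
    have := (tendsto_dq hid (hu j (Finset.mem_range.1 hj)) hid (p - 1)).const_mul σ
    exact (this.eventually (lt_mem_nhds hσD)).and
      (this.eventually (gt_mem_nhds (by rw [hK]; linarith)))
  have ec : ∀ᶠ c in l,
      0 < σ * dq c (yy N M c ((n - 1) * p + 1)) (yy N M c (0 * p + 1)) (p - 1) :=
    ((tendsto_dq hid (hu (n - 1) (by omega)) (hu 0 (by omega)) (p - 1)).const_mul σ).eventually
      (lt_mem_nhds hσD)
  have ed : ∀ᶠ c in l, K * (-(σ * (q c)^[p - 1] c)) < 1 := by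
    have e : (q c0)^[p - 1] c0 = 0 := by
      have := hpp
      rw [show p = p - 1 + 1 by omega, iterate_succ_apply, hq0] at this
      exact this
    have := (((tendsto_iter hid hid (p - 1)).const_mul σ).neg).const_mul K
    rw [e] at this
    exact this.eventually (gt_mem_nhds (by simp))
  obtain ⟨c, ⟨hca, hcb⟩, hb, hc, hd⟩ := (ea.and (eb.and (ec.and ed))).exists
  have hg := hgood c hca hcb
  have hit : ∀ j, j < n → (q c)^[p - 1] (yy N M c (j * p + 1)) = yy N M c ((j + 1) * p) := by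
    intro j hj
    have := hjle j hj
    rw [yy_iter N M c (fun k a b => (hg k (by omega) b).le) (by omega) (p - 1) (by omega)]
    congr 1
    rw [add_mul]; omega
  set μ := σ * (q c)^[p - 1] c with hμ
  have hZ : ∀ j, j < n → σ * yy N M c ((j + 1) * p) - μ =
      (yy N M c (j * p + 1) - c) * (σ * dq c (yy N M c (j * p + 1)) c (p - 1)) := by
    intro j hj
    have := iter_sub c (yy N M c (j * p + 1)) c (p - 1)
    rw [hit j hj] at this
    rw [hμ, ← mul_sub, this]; ring
  have hZpos : ∀ j, j < n → μ < σ * yy N M c ((j + 1) * p) := by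
    intro j hj
    have a := hZ j hj
    have b := (hb j (Finset.mem_range.2 hj)).1
    have d := hg (j * p + 1) (by omega) (by have := hjle j hj; omega)
    have := mul_pos (sub_pos.2 d) b
    linarith
  have hnp : (n - 1 + 1) * p = N := by
    rw [show n - 1 + 1 = n by omega, hn, mul_comm]
  have hμneg : μ < 0 := by
    have := hZpos (n - 1) (by omega)
    rwa [hnp, yy_N, mul_zero] at this
  have hdown : ∀ d, d < n → 0 ≤ σ * yy N M c ((n - d) * p) := by
    intro d
    induction d with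
    | zero => intro _; rw [Nat.sub_zero, mul_comm n p, ← hn, yy_N, mul_zero]
    | succ d ih =>
      intro hd'
      have ih' := ih (by omega)
      set j := n - (d + 1) with hj
      have hj1 : 1 ≤ j := by omega
      have hjn : j < n := by omega
      rw [show n - d = j + 1 by omega] at ih'
      have a := hZ j hjn
      have b := hb j (Finset.mem_range.2 hjn)
      have e := hZpos (j - 1) (by omega)
      rw [show j - 1 + 1 = j by omega] at e
      have hjp1 : 1 ≤ j * p := Nat.mul_pos hj1 hp0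
      have hsq := yy_sq N M c (k := j * p) (by have := hjle j hjn; omega)
        (hg _ (by omega) (by have := hjle j hjn; omega)).le
      rw [← hsq, q] at a
      set Z := σ * yy N M c (j * p) with hZdef
      have hZ2 : yy N M c (j * p) ^ 2 = Z ^ 2 := by rw [hZdef, mul_pow, hσ2, one_mul]
      rw [← hsq, q] at b
      set E := σ * dq c (yy N M c (j * p) ^ 2 + c) c (p - 1) with hE
      rw [hZ2] at a
      by_contra hneg
      have hneg : Z < 0 := not_le.1 hneg
      have h5 : Z ^ 2 ≤ μ ^ 2 := by nlinarith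
      have h6 : -μ ≤ Z ^ 2 * E := by nlinarith
      have h7 : Z ^ 2 * E ≤ μ ^ 2 * K := by
        have := b.1; have := b.2
        have := sq_nonneg Z
        nlinarith
      nlinarith
  have hZ1 := hdown (n - 1) (by omega)
  rw [show n - (n - 1) = 1 by omega] at hZ1
  have hsub := iter_sub c (yy N M c ((n - 1) * p + 1)) (yy N M c (0 * p + 1)) (p - 1)
  rw [hit (n - 1) (by omega), hit 0 (by omega), hnp, yy_N] at hsub
  have hnp1 : 1 ≤ (n - 1) * p := Nat.mul_pos (by omega) hp0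
  have hle := hjle (n - 1) (by omega)
  have hord : yy N M c (0 * p + 1) < yy N M c ((n - 1) * p + 1) := by
    rw [zero_mul, zero_add]
    exact yy_order h (fun k a b => hg k (by omega) b) _ _ le_rfl (by omega) (by omega) (by omega)
      (h.min_one _ (h.ne_zero hnp1 (by omega)))
  have := mul_pos (sub_pos.2 hord) hc
  rw [zero_add] at hsub
  have e2 : (yy N M c ((n - 1) * p + 1) - yy N M c (0 * p + 1)) *
      (σ * dq c (yy N M c ((n - 1) * p + 1)) (yy N M c (0 * p + 1)) (p - 1)) =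
      -(σ * yy N M c (1 * p)) := by
    have : σ * (0 - yy N M c (1 * p)) = σ * ((yy N M c ((n - 1) * p + 1) - yy N M c (0 * p + 1)) *
      dq c (yy N M c ((n - 1) * p + 1)) (yy N M c (0 * p + 1)) (p - 1)) := by rw [hsub]
    linarith
  linarith

theorem realize (hN : 2 ≤ N) (h : IsModel N M) :
    ∃ c : ℝ, -2 < c ∧ (∀ k, |(q c)^[k] 0| ≤ 2) ∧
      ∀ k l, (M k < M l ↔ (q c)^[k] 0 < (q c)^[l] 0) := by
  let S : Set ℝ := {c | -2 ≤ c ∧ ∃ k ∈ Finset.Icc 1 N, yy N M c k ≤ c}
  have hSc : IsClosed S := by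
    have : S = Ici (-2) ∩ ⋃ k ∈ Finset.Icc 1 N, {c | yy N M c k ≤ c} := by
      ext c; simp [S]
    rw [this]
    exact isClosed_Ici.inter (isClosed_biUnion_finset fun k _ =>
      isClosed_le (continuous_yy N M k) continuous_id)
  have hS0 : (0 : ℝ) ∈ S := ⟨by norm_num, N, by simp; omega, by rw [yy_N]⟩
  have hSb : BddBelow S := ⟨-2, fun c hc => hc.1⟩
  set c0 := sInf S with hc0
  have hmem : c0 ∈ S := hSc.csInf_mem ⟨0, hS0⟩ hSb
  have hgt : -2 < c0 := by
    refine lt_of_le_of_ne hmem.1 (fun e => ?_)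
    obtain ⟨k, -, hk⟩ := hmem.2
    rw [← e] at hk
    have := (abs_lt.1 (abs_back_lt N M (N - k))).1
    exact absurd hk (not_le.2 this)
  have hgood : ∀ c, -2 ≤ c → c < c0 → ∀ k, 1 ≤ k → k ≤ N → c < yy N M c k := by
    intro c h1 h2 k h3 h4
    by_contra hcon
    exact absurd (csInf_le hSb ⟨h1, k, Finset.mem_Icc.2 ⟨h3, h4⟩, not_lt.1 hcon⟩) (not_le.2 h2)
  let l := 𝓝[<] c0
  have hid : Tendsto (fun c : ℝ => c) l (𝓝 c0) := tendsto_nhdsWithin_of_tendsto_nhds tendsto_id
  have hy : ∀ k, Tendsto (fun c => yy N M c k) l (𝓝 (yy N M c0 k)) := fun k =>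
    tendsto_nhdsWithin_of_tendsto_nhds ((continuous_yy N M k).tendsto c0)
  have ea : ∀ᶠ c in l, -2 ≤ c ∧ c < c0 := by
    filter_upwards [self_mem_nhdsWithin, hid.eventually (lt_mem_nhds hgt)] with c a b
    exact ⟨b.le, a⟩
  have hge : ∀ k, 1 ≤ k → k ≤ N → c0 ≤ yy N M c0 k := fun k h1 h2 =>
    le_of_tendsto_of_tendsto hid (hy k) (ea.mono fun c hc => (hgood c hc.1 hc.2 k h1 h2).le)
  have h1 : yy N M c0 1 = c0 := by
    refine le_antisymm ?_ (hge 1 le_rfl (by omega))
    obtain ⟨k, hk, hk'⟩ := hmem.2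
    rw [Finset.mem_Icc] at hk
    refine le_trans ?_ hk'
    rcases Nat.eq_or_lt_of_le hk.1 with e | e
    · rw [← e]
    · refine le_of_tendsto_of_tendsto (hy 1) (hy k) (ea.mono fun c hc => ?_)
      refine (yy_order h (fun k a b => hgood c hc.1 hc.2 k (by omega) b) 1 k le_rfl (by omega)
        hk.1 hk.2 ?_).le
      have := h.min_one (k - 1) (h.ne_zero (by omega) (by omega))
      rwa [show k - 1 + 1 = k by omega] at this
  have hnd := nondeg h hgt hgood h1 hge
  have hNN : (q c0)^[N] 0 = 0 := by rw [yy_eq_iter h1 hge (by omega) le_rfl, yy_N]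
  have hper : IsPeriodicPt (q c0) N 0 := hNN
  have hmod : ∀ k l, k ≡ l [MOD N] → (q c0)^[k] 0 = (q c0)^[l] 0 := by
    intro k l e
    rw [← hper.iterate_mod_apply k, ← hper.iterate_mod_apply l, e]
  have hrep : ∀ k, ∃ k', 1 ≤ k' ∧ k' ≤ N ∧ k ≡ k' [MOD N] := by
    intro k
    by_cases e : k % N = 0
    · exact ⟨N, by omega, le_rfl, by simp [Nat.ModEq, e]⟩
    · exact ⟨k % N, by omega, (Nat.mod_lt _ (by omega)).le, (Nat.mod_modEq k N).symm⟩
  have hfw : ∀ k l, M k < M l → (q c0)^[k] 0 < (q c0)^[l] 0 := by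
    intro k l hlt
    obtain ⟨k', a1, a2, a3⟩ := hrep k
    obtain ⟨l', b1, b2, b3⟩ := hrep l
    rw [hmod k k' a3, hmod l l' b3, yy_eq_iter h1 hge a1 a2, yy_eq_iter h1 hge b1 b2]
    refine yy_order h hnd _ _ a1 a2 b1 b2 ?_
    rwa [← (h.eq_iff _ _).2 a3, ← (h.eq_iff _ _).2 b3]
  refine ⟨c0, hgt, fun k => ?_, fun k l => ⟨hfw k l, fun hlt => ?_⟩⟩
  · obtain ⟨k', a1, a2, a3⟩ := hrep k
    rw [hmod k k' a3, yy_eq_iter h1 hge a1 a2]
    exact abs_back_le N M hgt.le _
  · rcases lt_trichotomy (M k) (M l) with e | e | e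
    · exact e
    · rw [hmod k l ((h.eq_iff _ _).1 e)] at hlt; exact absurd hlt (lt_irrefl _)
    · exact absurd (hfw l k e) (not_lt.2 hlt.le)

end Pool.Agent.MP_a0c272_an
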