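import Pool.Agent.MP_a0c272_an.Defs

/-!
Stars of arcs: contractibility, graph structure, number of branches.
-/

namespace Pool.Agent.MP_a0c272_an

open Set Topology Function unitInterval

/-- A star of `n` arcs ending at `p`. -/
structure IsStar {n : ℕ} (γ : Fin n → C(I, Sph)) (p : Sph) : Prop where
  pos : 0 < n
  inj : ∀ i, Injective (γ i)
  top : ∀ i, γ i 1 = p
  meet : ∀ i j s t, γ i s = γ j t → i = j ∨ γ i s = p

variable {n : ℕ} {γ : Fin n → C(I, Sph)} {p : Sph}

lemma IsStar.eq_top (h : IsStar γ p) {i : Fin n} {s : I} : γ i s = p ↔ s = 1 :=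
  ⟨fun e => h.inj i (e.trans (h.top i).symm), fun e => e ▸ h.top i⟩

lemma IsStar.contractible (h : IsStar γ p) : ContractibleSpace ↥(⋃ i, range (γ i)) := by
  set T := ⋃ i, range (γ i) with hT
  have hmem : ∀ i s, γ i s ∈ T := fun i s => mem_iUnion.2 ⟨i, s, rfl⟩
  let π : Fin n × I → T := fun w => ⟨γ w.1 w.2, hmem _ _⟩
  have hπc : Continuous π := by
    refine Continuous.subtype_mk ?_ _
    exact continuous_prod_of_discrete_left.2 fun i => (γ i).continuous
  have hπs : Surjective π := by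
    rintro ⟨y, hy⟩
    obtain ⟨i, s, rfl⟩ := mem_iUnion.1 hy
    exact ⟨(i, s), rfl⟩
  let Q : I × (Fin n × I) → I × T := Prod.map id π
  have hQc : Continuous Q := continuous_id.prodMap hπc
  have hQ : IsQuotientMap Q :=
    hQc.isClosedMap.isQuotientMap hQc (surjective_id.prodMap hπs)
  let F : I × (Fin n × I) → T := fun w => π (w.2.1, max w.2.2 w.1)
  have hFc : Continuous F := hπc.comp (by fun_prop)
  let H : I × T → T := fun w => F (w.1, surjInv hπs w.2)
  have hHQ : H ∘ Q = F := by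
    funext ⟨t, i, s⟩
    have e := surjInv_eq hπs (π (i, s))
    simp only [H, Q, comp, Prod.map, id]
    generalize surjInv hπs (π (i, s)) = w at e
    obtain ⟨j, s'⟩ := w
    have e' : γ j s' = γ i s := congrArg Subtype.val e
    apply Subtype.ext
    change γ j (max s' t) = γ i (max s t)
    rcases h.meet _ _ _ _ e' with rfl | e''
    · rw [h.inj _ e']
    · have h1 := h.eq_top.1 e''
      have h2 := h.eq_top.1 (e'.symm.trans e'')
      rw [h1, h2, max_eq_left le_one', h.top, h.top]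
  have hH : Continuous H := hQ.continuous_iff.2 (hHQ ▸ hFc)
  rw [contractible_iff_id_nullhomotopic]
  refine ⟨⟨p, h.top ⟨0, h.pos⟩ ▸ hmem _ _⟩, ⟨⟨⟨H, hH⟩, fun y => ?_, fun y => ?_⟩⟩⟩
  · obtain ⟨⟨i, s⟩, rfl⟩ := hπs y
    have := congrFun hHQ (0, i, s)
    simp only [comp, Q, Prod.map, id] at this
    change H (0, π (i, s)) = π (i, s)
    rw [this]
    simp only [F, max_eq_left (nonneg' : 0 ≤ s)]
  · obtain ⟨⟨i, s⟩, rfl⟩ := hπs y
    have := congrFun hHQ (1, i, s)
    simp only [comp, Q, Prod.map, id] at this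
    change H (1, π (i, s)) = _
    rw [this]
    apply Subtype.ext
    change γ i (max s 1) = p
    rw [max_eq_right le_one', h.top]

lemma IsStar.graph (h : IsStar γ p) {P : Set Sph} (hP : P.Finite) (hp : p ∈ P)
    (h0 : ∀ i, γ i 0 ∈ P) (hsub : P ⊆ ⋃ i, range (γ i)) :
    ∃ G : Graph, (G.V : Set Sph) = P ∧ G.carrier = ⋃ i, range (γ i) := by
  have hfin : ∀ i, ((γ i) ⁻¹' P).Finite := fun i => hP.preimage (h.inj i).injOn
  have hnext : ∀ (i : Fin n) (s : I), s ≠ 1 →
      ∃ s', s < s' ∧ γ i s' ∈ P ∧ ∀ t, s < t → γ i t ∈ P → s' ≤ t := by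
    intro i s hs
    obtain ⟨s', h1, h2⟩ := exists_min_image {t | s < t ∧ γ i t ∈ P} id
      ((hfin i).subset fun t ht => ht.2)
      ⟨1, lt_of_le_of_ne le_one' hs, by rw [h.top]; exact hp⟩
    exact ⟨s', h1.1, h1.2, fun t a b => h2 t ⟨a, b⟩⟩
  choose nx hnx1 hnx2 hnx3 using hnext
  let E := {w : Fin n × I // γ w.1 w.2 ∈ P ∧ w.2 ≠ 1}
  have : Finite E := by
    have : {w : Fin n × I | γ w.1 w.2 ∈ P ∧ w.2 ≠ 1}.Finite := by
      refine (Set.finite_iUnion fun i : Fin n => (hfin i).image (Prod.mk i)).subset ?_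
      rintro ⟨i, s⟩ hw
      exact mem_iUnion.2 ⟨i, s, hw.1, rfl⟩
    exact this.to_subtype
  let par : E → I → I := fun w t => Icc.convexComb w.1.2 (nx w.1.1 w.1.2 w.2.2) t
  have hparc : ∀ w, Continuous (par w) := fun w => Icc.continuous_convexComb _ _
  have hcoe : ∀ w t, (par w t : ℝ) = w.1.2 + t * ((nx w.1.1 w.1.2 w.2.2 : ℝ) - w.1.2) := by
    intro w t
    simp only [par, Icc.convexComb]; ring
  have hlt : ∀ w : E, (w.1.2 : ℝ) < nx w.1.1 w.1.2 w.2.2 := fun w => hnx1 _ _ _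
  have hpinj : ∀ w, Injective (par w) := by
    intro w s t e
    have := congrArg Subtype.val e
    rw [hcoe, hcoe] at this
    have h2 := sub_pos.2 (hlt w)
    exact Subtype.ext (mul_right_cancel₀ h2.ne' (by linarith))
  have hp0 : ∀ w, par w 0 = w.1.2 := fun w => Subtype.ext (by rw [hcoe]; simp)
  have hp1 : ∀ w, par w 1 = nx w.1.1 w.1.2 w.2.2 := fun w => Subtype.ext (by rw [hcoe]; simp)
  have hlo : ∀ w t, w.1.2 ≤ par w t := fun w t => Icc.le_convexComb (hnx1 _ _ _).le t
  have hhi : ∀ w t, par w t ≤ nx w.1.1 w.1.2 w.2.2 := fun w t =>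
    Icc.convexComb_le (hnx1 _ _ _).le t
  have hends : ∀ w t, γ w.1.1 (par w t) ∈ P ↔ t = 0 ∨ t = 1 := by
    intro w t
    constructor
    · intro ht
      rcases (hlo w t).lt_or_eq with e | e
      · right
        exact hpinj w ((le_antisymm (hhi w t) (hnx3 _ _ _ _ e ht)).trans (hp1 w).symm)
      · left
        exact hpinj w (e.symm.trans (hp0 w).symm)
    · rintro (rfl | rfl)
      · rw [hp0]; exact w.2.1
      · rw [hp1]; exact hnx2 _ _ _
  have hdisj : ∀ w w' s t, γ w.1.1 (par w s) = γ w'.1.1 (par w' t) →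
      w = w' ∨ γ w.1.1 (par w s) ∈ P := by
    rintro ⟨⟨i, a⟩, hw⟩ ⟨⟨j, b⟩, hw'⟩ s t e
    rcases h.meet _ _ _ _ e with hij | e'
    · simp only at hij
      subst hij
      have e2 := h.inj _ e
      rcases lt_trichotomy a b with hab | hab | hab
      · right
        have h1 := hhi ⟨(i, a), hw⟩ s
        have h2 := hlo ⟨(i, b), hw'⟩ t
        have h3 := hnx3 i a hw.2 b hab hw'.1
        have : par ⟨(i, a), hw⟩ s = b := le_antisymm (h1.trans h3) (e2 ▸ h2)
        rw [this]; exact hw'.1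
      · left; subst hab; rfl
      · right
        have h1 := hhi ⟨(i, b), hw'⟩ t
        have h2 := hlo ⟨(i, a), hw⟩ s
        have h3 := hnx3 i b hw'.2 a hab hw.1
        have : par ⟨(i, a), hw⟩ s = a := le_antisymm (e2 ▸ h1.trans h3) h2
        rw [this]; exact hw.1
    · right; rw [e']; exact hp
  let φ := (Finite.equivFin E).symm
  let ed : E → C(I, Sph) := fun w => ⟨fun t => γ w.1.1 (par w t), (γ _).continuous.comp (hparc w)⟩
  refine ⟨⟨hP.toFinset, Nat.card E, fun k => ed (φ k), fun k => (h.inj _).comp (hpinj _),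
    fun k t => ?_, fun k l s t e => ?_⟩, by simp, ?_⟩
  · rw [Finite.mem_toFinset]; exact hends _ t
  · rw [Finite.mem_toFinset]
    exact (hdisj _ _ s t e).imp_left fun e => φ.injective e
  · simp only [Graph.carrier, Finite.coe_toFinset]
    apply Subset.antisymm
    · refine union_subset hsub (iUnion_subset fun k => ?_)
      rintro _ ⟨t, rfl⟩
      exact mem_iUnion.2 ⟨_, _, rfl⟩
    · refine iUnion_subset fun i => ?_
      rintro _ ⟨t, rfl⟩
      obtain ⟨s, h1, h2⟩ := exists_max_image {s | s ≤ t ∧ γ i s ∈ P} id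
        ((hfin i).subset fun t ht => ht.2) ⟨0, nonneg', h0 i⟩
      by_cases ht : γ i t ∈ P
      · exact Or.inl ht
      right
      have hs1 : s ≠ 1 := by
        intro e
        have : t = 1 := le_antisymm le_one' (e ▸ h1.1)
        exact ht (by rw [this, h.top]; exact hp)
      let w : E := ⟨(i, s), h1.2, hs1⟩
      have h3 : t ≤ nx i s hs1 := by
        by_contra hcon
        have := h2 _ ⟨(not_le.1 hcon).le, hnx2 i s hs1⟩
        exact absurd (hnx1 i s hs1) (not_lt.2 this)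
      have h4 : t ∈ Icc (par w 0) (par w 1) := by rw [hp0, hp1]; exact ⟨h1.1, h3⟩
      obtain ⟨u, -, hu⟩ := intermediate_value_Icc (zero_le_one' I) (hparc w).continuousOn h4
      refine mem_iUnion.2 ⟨φ.symm w, u, ?_⟩
      simp only [ed, Equiv.apply_symm_apply, ContinuousMap.coe_mk, hu]
      rfl

lemma IsStar.card_le {n' : ℕ} {γ' : Fin n' → C(I, Sph)} (h : IsStar γ p) (h' : IsStar γ' p)
    (f : ↥(⋃ i, range (γ i)) → Sph) (hf : Continuous f) (hinj : Injective f)
    (hr : range f = ⋃ i, range (γ' i)) 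
    (hp : ∀ x : ↥(⋃ i, range (γ i)), (x : Sph) = p → f x = p) : n' ≤ n := by
  have hmem : ∀ i s, γ i s ∈ ⋃ i, range (γ i) := fun i s => mem_iUnion.2 ⟨i, s, rfl⟩
  let g : Fin n → I → Sph := fun i s => f ⟨γ i s, hmem i s⟩
  have hgc : ∀ i, Continuous (g i) := fun i => hf.comp ((γ i).continuous.subtype_mk _)
  have hgp : ∀ i s, g i s = p → s = 1 := by
    intro i s e
    have := hinj (e.trans (hp ⟨γ i 1, hmem i 1⟩ (h.top i)).symm)
    exact h.inj i (congrArg Subtype.val this)
  have hne : ∀ j, γ' j 0 ≠ p := fun j e => zero_ne_one (h'.eq_top.1 e)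
  have hex : ∀ j, ∃ i s, s < 1 ∧ g i s = γ' j 0 := by
    intro j
    have : γ' j 0 ∈ range f := by rw [hr]; exact mem_iUnion.2 ⟨j, 0, rfl⟩
    obtain ⟨⟨y, hy⟩, e⟩ := this
    obtain ⟨i, s, rfl⟩ := mem_iUnion.1 hy
    refine ⟨i, s, lt_of_le_of_ne le_one' (fun e' => hne j ?_), e⟩
    rw [← e]; exact hp _ (h.eq_top.2 e')
  choose φ ρ hρ hφ using hex
  have hcl : ∀ j, IsClosed (range (γ' j)) := fun j => (isCompact_range (γ' j).continuous).isClosed
  have key : Injective φ := by
    intro j k e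
    by_contra hjk
    have hS : IsPreconnected (g (φ j) '' Iio 1) := isPreconnected_Iio.image _ (hgc _).continuousOn
    have hv : IsClosed (⋃ l ∈ {l | l ≠ j}, range (γ' l)) :=
      (Set.toFinite _).isClosed_biUnion fun l _ => hcl l
    have hnp : ∀ y ∈ g (φ j) '' Iio 1, y ≠ p := by
      rintro _ ⟨s, hs, rfl⟩ e'
      exact absurd (hgp _ _ e') (ne_of_lt hs)
    rcases isPreconnected_iff_subset_of_disjoint_closed.1 hS _ _ (hcl j) hv (by
      rintro _ ⟨s, -, rfl⟩
      have : g (φ j) s ∈ ⋃ i, range (γ' i) := by rw [← hr]; exact ⟨_, rfl⟩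
      obtain ⟨l, hl⟩ := mem_iUnion.1 this
      by_cases e' : l = j
      · left; exact e' ▸ hl
      · right; exact mem_biUnion e' hl) (by
      rw [eq_empty_iff_forall_notMem]
      rintro y ⟨hy, ⟨s, rfl⟩, h2⟩
      obtain ⟨l, hl, t, ht⟩ := mem_iUnion₂.1 h2
      rcases h'.meet _ _ _ _ ht.symm with e' | e'
      · exact hl e'.symm
      · exact hnp _ hy e') with h1 | h1
    · obtain ⟨s, hs⟩ := h1 ⟨ρ k, hρ k, by rw [e, hφ]⟩
      rcases h'.meet _ _ _ _ hs.symm with e' | e'
      · exact hjk e'.symm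
      · exact hne k e'
    · obtain ⟨l, hl, s, hs⟩ := mem_iUnion₂.1 (h1 ⟨ρ j, hρ j, hφ j⟩)
      rcases h'.meet _ _ _ _ hs.symm with e' | e'
      · exact hl e'.symm
      · exact hne j e'
  simpa using Fintype.card_le_of_injective φ key

end Pool.Agent.MP_a0c272_an
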